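import Mathlib

/-!
# Chains of orders

`Step p π t s` is the relation between the order `t` of `T` and the order `s` of `(1 + T) ^ p - 1`
when `p` has order `π`. Going back `k` steps from a multiple of the ramification index `e`, one
sees that `p ^ k` divides a constant times `e`.
-/

set_option autoImplicit false

open scoped Nat

namespace Pool.Agent.UHZ

/-- One step. -/
def Step (p : ℕ) (π t s : ℤ) : Prop :=
  ((p - 1 : ℤ) * t < π ∧ s = p * t) ∨ (π < (p - 1 : ℤ) * t ∧ s = t + π) ∨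
    ((p - 1 : ℤ) * t = π ∧ p * t ≤ s)

/-- A chain of steps back from `r0`. -/
inductive Chain (p : ℕ) (π r0 : ℤ) : ℕ → ℤ → Prop
  | zero : Chain p π r0 0 r0
  | succ {k : ℕ} {s t : ℤ} : Chain p π r0 k s → 0 < t → Step p π t s → Chain p π r0 (k + 1) t

theorem Step.lt {p : ℕ} (hp : 2 ≤ p) {π t s : ℤ} (hπ : 0 < π) (ht : 0 < t) (h : Step p π t s) :
    t < s := by
  have hp' : (2 : ℤ) ≤ p := by exact_mod_cast hp
  rcases h with ⟨_, h⟩ | ⟨_, h⟩ | ⟨_, h⟩ <;> nlinarith

theorem Chain.inv {p : ℕ} (hp : 2 ≤ p) {e ε : ℤ} {γ : ℕ} (he : 0 < e) (hε : 0 < ε) (hγ : 0 < γ)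
    {k : ℕ} {r : ℤ} (h : Chain p (e * ε) (e * γ) k r) :
    0 < r ∧ ((p - 1 : ℤ) * r < p * (e * ε) ∨ r + k * e ≤ e * γ) ∧
      ∃ u : ℤ, 0 < u ∧ u ≤ (p - 1) * p ^ γ * γ ∧ (p - 1) * p ^ k * r = u * e := by
  have hp' : (2 : ℤ) ≤ p := by exact_mod_cast hp
  have hγ' : (1 : ℤ) ≤ γ := by exact_mod_cast hγ
  have hπ : 0 < e * ε := mul_pos he hε
  have hp1 : (0 : ℤ) < p - 1 := by linarith
  induction h with
  | zero =>
    refine ⟨by positivity, Or.inr (by simp), (p - 1) * γ, by positivity, ?_, by ring⟩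
    have h1 : (1 : ℤ) ≤ (p : ℤ) ^ γ := one_le_pow₀ (by linarith)
    have h2 : (0 : ℤ) ≤ (p - 1) * γ := by positivity
    nlinarith
  | @succ k s t hs ht hst ih =>
    obtain ⟨hs0, hsm, u, hu0, huU, hue⟩ := ih
    have hlt := hst.lt hp hπ ht
    by_cases hsmall : (p - 1 : ℤ) * s < p * (e * ε)
    · -- the small regime
      have hst1 : (p - 1 : ℤ) * t < e * ε ∧ s = p * t := by
        rcases hst with h | ⟨h1, h2⟩ | ⟨h1, h2⟩
        · exact h
        · exfalso
          rw [h2] at hsmall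
          nlinarith
        · exfalso
          nlinarith
      refine ⟨ht, Or.inl ?_, u, hu0, huU, ?_⟩
      · nlinarith [hst1.1]
      · rw [← hue, hst1.2, pow_succ]; ring
    · -- the first regime
      have hk : s + k * e ≤ e * γ := hsm.resolve_left hsmall
      have hkγ : k + 1 ≤ γ := by
        by_contra hcon
        push Not at hcon
        have h1 : (γ : ℤ) ≤ k := by exact_mod_cast Nat.lt_succ_iff.mp hcon
        have h2 : e * γ ≤ e * k := mul_le_mul_of_nonneg_left h1 he.le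
        nlinarith
      have hte : t ≤ e * γ := by
        have : (0 : ℤ) ≤ k * e := by positivity
        linarith
      -- the number `u`
      have hu : ∃ u' : ℤ, (p - 1) * p ^ (k + 1) * t = u' * e := by
        rcases hst with ⟨h1, h2⟩ | ⟨h1, h2⟩ | ⟨h1, h2⟩
        · exact ⟨u, by rw [← hue, h2, pow_succ]; ring⟩
        · refine ⟨p * u - (p - 1) * p ^ (k + 1) * ε, ?_⟩
          have e1 : t = s - e * ε := by linarith
          have e2 : (p - 1 : ℤ) * p ^ (k + 1) * s = p * (u * e) := by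
            rw [← hue, pow_succ]; ring
          rw [e1, mul_sub, e2]
          ring
        · refine ⟨p ^ (k + 1) * ε, ?_⟩
          calc (p - 1 : ℤ) * p ^ (k + 1) * t = p ^ (k + 1) * ((p - 1) * t) := by ring
            _ = p ^ (k + 1) * ε * e := by rw [h1]; ring
      obtain ⟨u', hu'⟩ := hu
      have hpk : (0 : ℤ) < (p - 1) * p ^ (k + 1) := by positivity
      have hu'0 : 0 < u' := by
        have : 0 < u' * e := by rw [← hu']; positivity
        exact pos_of_mul_pos_left this he.le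
      refine ⟨ht, ?_, u', hu'0, ?_, hu'⟩
      · rcases hst with ⟨h1, h2⟩ | ⟨h1, h2⟩ | ⟨h1, h2⟩
        · exfalso
          apply hsmall
          rw [h2]
          nlinarith
        · right
          have h3 : e ≤ e * ε := le_mul_of_one_le_right he.le hε
          push_cast
          linarith
        · left
          rw [h1]
          nlinarith
      · have h1 : u' * e ≤ (p - 1) * p ^ γ * γ * e := by
          rw [← hu']
          have h2 : (p : ℤ) ^ (k + 1) ≤ p ^ γ := pow_le_pow_right₀ (by linarith) hkγ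
          calc (p - 1 : ℤ) * p ^ (k + 1) * t ≤ (p - 1) * p ^ γ * (e * γ) := by
                gcongr
            _ = (p - 1) * p ^ γ * γ * e := by ring
        exact le_of_mul_le_mul_right h1 he

/-- **Chains force ramification.** -/
theorem Chain.dvd {p : ℕ} (hp : 2 ≤ p) {ε γ : ℕ} (hε : 0 < ε) (hγ : 0 < γ) :
    ∃ C : ℕ, 0 < C ∧ ∀ (e : ℕ), 0 < e → ∀ (k : ℕ) (r : ℤ),
      Chain p ((e : ℤ) * ε) ((e : ℤ) * γ) k r → p ^ k ∣ C * e := by
  refine ⟨((p - 1) * p ^ γ * γ)!, Nat.factorial_pos _, fun e he k r h => ?_⟩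
  obtain ⟨hr, -, u, hu0, huU, hue⟩ := h.inv hp (by exact_mod_cast he) (by exact_mod_cast hε) hγ
  obtain ⟨m, rfl⟩ := Int.eq_ofNat_of_zero_le hu0.le
  have hm0 : 0 < m := by exact_mod_cast hu0
  have hmU : m ≤ (p - 1) * p ^ γ * γ := by
    have h1 : ((p - 1 : ℕ) : ℤ) = (p : ℤ) - 1 := by
      rw [Nat.cast_sub (by omega)]; simp
    have h2 : (m : ℤ) ≤ (((p - 1) * p ^ γ * γ : ℕ) : ℤ) := by
      push_cast
      rw [h1]
      exact huU
    exact_mod_cast h2
  have h3 : ((p ^ k : ℕ) : ℤ) ∣ ((m * e : ℕ) : ℤ) := by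
    push_cast
    have h4 : (m : ℤ) * e = p ^ k * ((p - 1) * r) := by rw [← hue]; ring
    rw [h4]
    exact dvd_mul_right _ _
  have h5 : p ^ k ∣ m * e := Int.natCast_dvd_natCast.mp h3
  exact h5.trans (Nat.mul_dvd_mul_right (Nat.dvd_factorial hm0 hmU) e)

end Pool.Agent.UHZ
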