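import Pool.Agent.UHT.TColl

/-!
# Residue degrees are divisible by large powers of `p`

Lifting the exponent in divisibility form, the order of the residue of the ratio of the points of a
collision, and the passage from all the places above a place to the degree.
-/

set_option autoImplicit false

open IsDedekindDomain NumberField
open scoped WithZero

namespace Pool.Agent.UHZ

open Pool.Agent.UHT (Cl residue_bound)

/-- Lifting the exponent, in divisibility form. -/
theorem lte_dvd {p Q : ℕ} (hp : p.Prime) (hQ : 2 ≤ Q) (hpQ : ¬ p ∣ Q) :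
    ∃ C : ℕ, 0 < C ∧ ∀ r m : ℕ, 0 < r → p ^ m ∣ Q ^ r - 1 → p ^ m ∣ C * r := by
  have hfact : Fact p.Prime := ⟨hp⟩
  have hQ1 : 1 < Q := hQ
  rcases hp.eq_two_or_odd' with h2 | hodd
  · -- `p = 2`
    subst h2
    have hC : 0 < (Q + 1) * (Q - 1) := Nat.mul_pos (by omega) (by omega)
    refine ⟨(Q + 1) * (Q - 1), hC, fun r m hr h => ?_⟩
    have hne : Q ^ (2 * r) - 1 ≠ 0 := by
      have := Nat.one_lt_pow (by omega : 2 * r ≠ 0) hQ1
      omega
    have hdvd : 2 ^ m ∣ Q ^ (2 * r) - 1 := by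
      refine h.trans ?_
      have := Nat.sub_dvd_pow_sub_pow (Q ^ r) 1 2
      rw [one_pow, ← pow_mul, mul_comm r 2] at this
      exact this
    have h3 := (padicValNat_dvd_iff_le hne).mp hdvd
    have hodd : Odd Q := by
      rw [← Nat.not_even_iff_odd, even_iff_two_dvd]; exact hpQ
    have h4 := padicValNat.pow_two_sub_pow (x := Q) (y := 1) hQ1 (by
      obtain ⟨k, hk⟩ := hodd
      exact ⟨k, by omega⟩) hpQ (n := 2 * r) (by omega) (even_two_mul r)
    rw [one_pow] at h4
    have h5 : padicValNat 2 (2 * r) = 1 + padicValNat 2 r := by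
      rw [padicValNat.mul (by norm_num) (by omega)]
      simp
    rw [padicValNat_dvd_iff_le (Nat.mul_pos hC hr).ne',
      padicValNat.mul hC.ne' hr.ne', padicValNat.mul (by omega) (by omega)]
    omega
  · -- `p` odd
    set Q0 := Q ^ (p - 1) with hQ0
    have hp1 : p - 1 ≠ 0 := by have := hp.two_le; omega
    have hQ01 : 1 < Q0 := Nat.one_lt_pow hp1 hQ1
    have hC : 0 < Q0 - 1 := by omega
    refine ⟨Q0 - 1, hC, fun r m hr h => ?_⟩
    have hcop : Nat.Coprime Q p := (Nat.Prime.coprime_iff_not_dvd hp).mpr hpQ |>.symm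
    have hferm : p ∣ Q0 - 1 := by
      have := Nat.ModEq.pow_totient hcop
      rw [Nat.totient_prime hp] at this
      exact (Nat.modEq_iff_dvd' hQ01.le).mp this.symm
    have hpQ0 : ¬ p ∣ Q0 := fun h' => hpQ (hp.dvd_of_dvd_pow h')
    have hne : Q0 ^ r - 1 ≠ 0 := by
      have := Nat.one_lt_pow (by omega : r ≠ 0) hQ01
      omega
    have hdvd : p ^ m ∣ Q0 ^ r - 1 := by
      refine h.trans ?_
      have := Nat.sub_dvd_pow_sub_pow (Q ^ r) 1 (p - 1)
      rw [one_pow, ← pow_mul, mul_comm r (p - 1), pow_mul] at this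
      exact this
    have h3 := (padicValNat_dvd_iff_le hne).mp hdvd
    have h4 := padicValNat.pow_sub_pow hodd (x := Q0) (y := 1) hQ01 hferm hpQ0 (n := r)
      (by omega)
    rw [one_pow] at h4
    rw [padicValNat_dvd_iff_le (Nat.mul_pos hC hr).ne', padicValNat.mul hC.ne' hr.ne']
    omega

section

variable {E : Type*} [Field E] [NumberField E]

/-- The value of a root of unity. -/
theorem val_root {u : Valuation E ℤᵐ⁰} {w : E} {d : ℕ} (hd : 0 < d) (hw : w ^ d = 1) :
    u w = 1 := by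
  have h1 : u w ^ d = 1 := by rw [← map_pow, hw, map_one]
  exact (pow_eq_one_iff_of_nonneg zero_le hd.ne').mp h1

/-- A root of unity of prime order different from the residue characteristic is not congruent
to `1`. -/
theorem val_sub_one_prime {u : Valuation E ℤᵐ⁰} {p : ℕ} (hp : p.Prime) (hpu : u (p : E) = 1)
    {w : E} (hw : w ^ p = 1) (hw1 : w ≠ 1) : u (w - 1) = 1 := by
  have hu : u w = 1 := val_root hp.pos hw
  have hle : u (w - 1) ≤ 1 := by
    refine (Valuation.map_sub u w 1).trans ?_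
    rw [hu, map_one, max_self]
  refine le_antisymm hle (le_of_not_gt fun hlt => ?_)
  have hsum : ∑ i ∈ Finset.range p, w ^ i = 0 := by
    have h1 := geom_sum_mul w p
    rw [hw, sub_self] at h1
    exact (mul_eq_zero.mp h1).resolve_right (sub_ne_zero.mpr hw1)
  have h2 : (p : E) = -∑ i ∈ Finset.range p, (w ^ i - 1) := by
    rw [Finset.sum_sub_distrib, hsum, Finset.sum_const, Finset.card_range, nsmul_eq_mul, mul_one]
    ring
  have h3 : u (p : E) < 1 := by
    rw [h2, Valuation.map_neg]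
    refine Valuation.map_sum_lt u one_ne_zero fun i _ => ?_
    have h4 : w ^ i - 1 = (∑ j ∈ Finset.range i, w ^ j) * (w - 1) := (geom_sum_mul w i).symm
    rw [h4, map_mul]
    have h5 : u (∑ j ∈ Finset.range i, w ^ j) ≤ 1 := by
      refine Valuation.map_sum_le u fun j _ => ?_
      rw [map_pow, hu, one_pow]
    calc u (∑ j ∈ Finset.range i, w ^ j) * u (w - 1) ≤ 1 * u (w - 1) := by gcongr
      _ < 1 := by rw [one_mul]; exact hlt
  rw [hpu] at h3
  exact lt_irrefl _ h3

/-- **The residue field of a tame place is large.** If the ratio `z` of the points of a collision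
is a unit at `W`, `z ^ (d ^ N)` is congruent to the root of unity `w`, and the prime `p`, which
is a unit at `W`, divides the order of `w`, then `p ^ (a N + 1)` divides the order of the
multiplicative group of the residue field, `p ^ a` being a divisor of `d`. -/
theorem residue_dvd (W : HeightOneSpectrum (𝓞 E)) {p : ℕ} (hp : p.Prime)
    (hpW : W.valuation E (p : E) = 1) {d a : ℕ} (hd : 0 < d) (had : p ^ a ∣ d) {w : E}
    (hw : w ^ d = 1) (hpw : p ∣ orderOf w) {z : E} (hz : W.valuation E z = 1) {N : ℕ}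
    (hcl : Cl (W.valuation E) (z ^ d ^ N) w) :
    p ^ (a * N + 1) ∣ Nat.card (𝓞 E ⧸ W.asIdeal) - 1 := by
  set u := W.valuation E with hu
  have hfin : 0 < orderOf w := (isOfFinOrder_iff_pow_eq_one.mpr ⟨d, hd, hw⟩).orderOf_pos
  obtain ⟨n, hn⟩ := hpw
  obtain ⟨M, hM⟩ : p ^ (a * N) ∣ d ^ N := by
    rw [pow_mul]; exact pow_dvd_pow_of_dvd had N
  have hn0 : 0 < n := by
    rcases Nat.eq_zero_or_pos n with h | h
    · rw [h, mul_zero] at hn; omega
    · exact h
  -- the root of unity of order `p`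
  set w1 := w ^ n with hw1
  have hw1p : w1 ^ p = 1 := by
    rw [hw1, ← pow_mul, mul_comm, ← hn, pow_orderOf_eq_one]
  have hw1n : w1 ≠ 1 := by
    intro h
    have h1 := orderOf_dvd_of_pow_eq_one h
    have h2 := Nat.le_of_dvd hn0 h1
    rw [hn] at h2
    have := hp.two_le
    nlinarith
  have hcl1 : Cl u (z ^ (p ^ (a * N) * (M * n))) w1 := by
    have h1 : z ^ (p ^ (a * N) * (M * n)) = (z ^ d ^ N) ^ n := by
      rw [← pow_mul, hM]; ring_nf
    rw [h1, hw1]
    exact hcl.pow n
  have huw1 : u w1 = 1 := val_root hp.pos hw1p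
  have hρ : u (z ^ (M * n)) = 1 := by rw [map_pow, hz, one_pow]
  have h2 : u ((z ^ (M * n)) ^ (p ^ 1) ^ (a * N) - 1) = 1 := by
    have e : (z ^ (M * n)) ^ (p ^ 1) ^ (a * N) - 1 =
        (w1 - 1) + (z ^ (p ^ (a * N) * (M * n)) - w1) := by
      rw [pow_one, ← pow_mul, mul_comm (M * n)]; ring
    rw [e, Valuation.map_add_eq_of_lt_left, val_sub_one_prime hp hpW hw1p hw1n]
    rw [val_sub_one_prime hp hpW hw1p hw1n]
    have h3 := hcl1
    unfold Cl at h3
    rwa [huw1] at h3
  have h3 : u ((z ^ (M * n)) ^ (p ^ 1) ^ (a * N + 1) - 1) < 1 := by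
    have h4 := hcl1.pow p
    unfold Cl at h4
    rw [hw1p, map_one] at h4
    have e : (z ^ (M * n)) ^ (p ^ 1) ^ (a * N + 1) = (z ^ (p ^ (a * N) * (M * n))) ^ p := by
      rw [pow_one, ← pow_mul, ← pow_mul, pow_succ]; ring_nf
    rw [e]
    exact h4
  have h5 := residue_bound W (s := 1) hp hρ h2 h3
  rwa [one_mul] at h5

end

/-- **From the places to the degree.** -/
theorem dvd_finrank {K : Type*} [Field K] [NumberField K] (v : HeightOneSpectrum (𝓞 K))
    (E : Type*) [Field E] [NumberField E] [Algebra K E] (D C : ℕ)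
    (h : ∀ (W : HeightOneSpectrum (𝓞 E)) (e r : ℕ), 0 < e → 0 < r →
      Nat.card (𝓞 E ⧸ W.asIdeal) = Nat.card (𝓞 K ⧸ v.asIdeal) ^ r →
      (∀ x : K, v.valuation K x ^ e = W.valuation E (algebraMap K E x)) → D ∣ C * (e * r)) :
    D ∣ C * Module.finrank K E := by
  classical
  have : v.asIdeal.IsMaximal := v.isMaximal
  have h1 : ∀ (r : 𝓞 K) (m : 𝓞 E), r • m = 0 → r = 0 ∨ m = 0 := by
    intro r m h
    rw [Algebra.smul_def, mul_eq_zero] at h
    rcases h with h | h
    · left
      exact (FaithfulSMul.algebraMap_injective (𝓞 K) (𝓞 E)) (by rw [h, map_zero])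
    · right
      exact h
  have h2 : NoZeroSMulDivisors (𝓞 K) (𝓞 E) := ⟨fun {r m} h => h1 r m h⟩
  rw [← Ideal.sum_ramification_inertia (𝓞 E) K E v.ne_bot, Finset.mul_sum]
  refine Finset.dvd_sum fun P hP => ?_
  have hP1 : P.IsPrime := ((IsDedekindDomain.mem_primesOverFinset_iff v.ne_bot _).mp hP).1
  have hP2 : P.LiesOver v.asIdeal :=
    ((IsDedekindDomain.mem_primesOverFinset_iff v.ne_bot _).mp hP).2
  have hP3 : P ≠ ⊥ := by
    rintro rfl
    have h1 := hP2.over
    have h2 : (⊥ : Ideal (𝓞 E)).under (𝓞 K) = ⊥ := by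
      rw [Ideal.under_bot]
    rw [h2] at h1
    exact v.ne_bot h1
  let W : HeightOneSpectrum (𝓞 E) := ⟨P, hP1, hP3⟩
  have hW : W.asIdeal.LiesOver v.asIdeal := hP2
  have hWm : W.asIdeal.IsMaximal := W.isMaximal
  have h3 := h W (v.asIdeal.ramificationIdx' W.asIdeal) (W.asIdeal.inertiaDeg (𝓞 K))
    (Nat.pos_of_ne_zero
      (Ideal.IsDedekindDomain.ramificationIdx'_ne_zero_of_liesOver W.asIdeal v.ne_bot))
    (Ideal.inertiaDeg_pos W.asIdeal (𝓞 K))
    (Ideal.cardQuot_pow_inertiaDeg v.asIdeal W.asIdeal).symm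
    (fun x => HeightOneSpectrum.valuation_liesOver E v W x)
  rw [← Ideal.inertiaDeg'_eq_inertiaDeg v.asIdeal W.asIdeal] at h3
  exact h3

end Pool.Agent.UHZ
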