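import Pool.Agent.UHZ.Place
import Pool.Agent.UHZ.Res

/-!
# Collisions of `X ^ d + c` and the degree, `d` not a prime power
-/

set_option autoImplicit false

open IsDedekindDomain NumberField Polynomial
open scoped WithZero

namespace Pool.Agent.UHZ

open Pool.Agent.Arb.DB (od u_ne od_mul od_pos od_nonneg od_lt od_le od_eq od_pow)
open Pool.Agent.UHU (PR ratio)
open Pool.Agent.UHT (Cl)
open Pool.Agent.UH2 (aeval_fun inner_collision exists_clear le_exp_neg_one IntP eval_le)

/-! ### the polynomial -/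

section poly

theorem map_unicrit {K E : Type*} [Field K] [Field E] [Algebra K E] (d : ℕ) (c : K) :
    (fun z : E => ((X ^ d + C c : K[X]).map (algebraMap K E)).eval z) =
      fun z => z ^ d + algebraMap K E c := by
  funext z
  simp

theorem pr_unicrit {F : Type*} [Field F] {u : Valuation F ℤᵐ⁰} {d : ℕ} (hd : 0 < d) {c : F}
    (hc : u c < 1) : PR u d (X ^ d + C c) := by
  refine ⟨(natDegree_X_pow_add_C).le, ?_, fun i hi => ?_⟩
  · rw [coeff_add, coeff_X_pow, if_pos rfl, coeff_C_of_ne_zero hd.ne', add_zero, map_one]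
  · rw [coeff_add, coeff_X_pow, if_neg hi.ne, zero_add, coeff_C]
    split_ifs
    · exact hc
    · rw [map_zero]; exact zero_lt_one

theorem crit_unicrit {K : Type*} [Field K] [CharZero K] {d : ℕ} (hd : 2 ≤ d) {c : K}
    (hc : c ≠ 0) : IsCoprime (X ^ d + C c - X : K[X]) (derivative (X ^ d + C c)) := by
  have h1 : derivative (X ^ d + C c : K[X]) = C (d : K) * X ^ (d - 1) := by
    rw [derivative_add, derivative_C, add_zero, derivative_X_pow]
  rw [h1]
  have hd0 : (d : K) ≠ 0 := by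
    have : d ≠ 0 := by omega
    exact_mod_cast this
  have h2 : IsCoprime (X ^ d + C c - X : K[X]) X := by
    obtain ⟨k, rfl⟩ : ∃ k, d = k + 1 := ⟨d - 1, by omega⟩
    refine ⟨C c⁻¹, -(C c⁻¹ * (X ^ k - 1)), ?_⟩
    have h3 : C c⁻¹ * C c = (1 : K[X]) := by rw [← C_mul, inv_mul_cancel₀ hc, C_1]
    linear_combination h3
  have h3 : IsUnit (C (d : K)) := isUnit_C.mpr (isUnit_iff_ne_zero.mpr hd0)
  exact (isCoprime_mul_unit_left_right h3 _ _).mpr (h2.pow_right)

end poly

variable {K : Type*} [Field K] [NumberField K]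

/-- **Inside the open unit disc.** -/
theorem inner_le (f : K[X]) {q : ℕ} (hq : 2 ≤ q) (v : HeightOneSpectrum (𝓞 K))
    (hf : PR (v.valuation K) q f) (hcrit : IsCoprime (f - X) f.derivative) :
    ∃ C1 : ℕ, 0 < C1 ∧ ∀ (E : Type*) [Field E] [NumberField E] [Algebra K E]
      (W : HeightOneSpectrum (𝓞 E)) (e : ℕ), 0 < e →
      (∀ a : K, v.valuation K a ^ e = W.valuation E (algebraMap K E a)) → ∀ (x y : E) (N : ℕ),
      (fun z : E => (f.map (algebraMap K E)).eval z)^[N + 1] x =
        (fun z : E => (f.map (algebraMap K E)).eval z)^[N + 1] y →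
      (fun z : E => (f.map (algebraMap K E)).eval z)^[N] x ≠
        (fun z : E => (f.map (algebraMap K E)).eval z)^[N] y →
      W.valuation E x < 1 → W.valuation E y < 1 → q ^ N ≤ C1 * e := by
  obtain ⟨A, B, hAB⟩ := hcrit
  obtain ⟨c, hc0, hc⟩ := exists_clear A B
  obtain ⟨t, ht⟩ := v.valuation_exists_uniformizer K
  have hcK : (c : K) ≠ 0 := by
    intro h
    exact hc0 (RingOfIntegers.coe_injective (h.trans (map_zero (algebraMap (𝓞 K) K)).symm))
  have ht1 : v.valuation K t < 1 := by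
    rw [ht, ← WithZero.exp_zero, WithZero.exp_lt_exp]; norm_num
  have ht0 : t ≠ 0 := by
    rintro rfl
    rw [map_zero] at ht
    exact (WithZero.exp_ne_zero (a := (-1 : ℤ))) ht.symm
  have hT : 0 < od (v.valuation K) t := (od_pos _ ht0).mp ht1
  set T := od (v.valuation K) t with hTdef
  set b := (od (v.valuation K) (c : K)).toNat with hb
  have hT1 : 0 < T.toNat := by omega
  refine ⟨q ^ (b + 1) * T.toNat, by positivity, ?_⟩
  intro E _ _ _ W e he0 hw x y N heq hne hx hy
  set P := f.map (algebraMap K E) with hPdef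
  have hP : PR (W.valuation E) q P := hf.base he0 hw
  set tE := algebraMap K E t with htE
  have htE0 : tE ≠ 0 := by rw [htE, ne_eq, map_eq_zero]; exact ht0
  have htE1 : W.valuation E tE < 1 := by
    rw [htE, ← hw]; exact pow_lt_one₀ zero_le ht1 (by omega)
  have hPt : ∀ i < q, W.valuation E (P.coeff i) ≤ W.valuation E tE := by
    intro i hi
    rw [hPdef, coeff_map, htE, ← hw, ← hw]
    refine pow_le_pow_left₀ zero_le ?_ e
    rw [ht]
    exact le_exp_neg_one (hf.low i hi)
  set cE := algebraMap K E (c : K) with hcE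
  have hcE0 : cE ≠ 0 := by rw [hcE, ne_eq, map_eq_zero]; exact hcK
  have hbez : ∀ z : E, W.valuation E z < 1 →
      W.valuation E cE ≤ max (W.valuation E (P.eval z - z))
        (W.valuation E (P.derivative.eval z)) := by
    intro z hz
    have hAi : IntP (W.valuation E) ((C (c : K) * A).map (algebraMap K E)) := by
      intro i
      rw [coeff_map, coeff_C_mul, ← hw]
      exact pow_le_one₀ zero_le (hc v i).1
    have hBi : IntP (W.valuation E) ((C (c : K) * B).map (algebraMap K E)) := by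
      intro i
      rw [coeff_map, coeff_C_mul, ← hw]
      exact pow_le_one₀ zero_le (hc v i).2
    have e1 : (C (c : K) * A) * (f - X) + (C (c : K) * B) * f.derivative = C (c : K) := by
      linear_combination (C (c : K)) * hAB
    have e2 := congrArg (fun g : K[X] => (g.map (algebraMap K E)).eval z) e1
    simp only [Polynomial.map_add, Polynomial.map_mul, Polynomial.map_sub, map_X, map_C,
      eval_add, eval_mul, eval_sub, eval_X, eval_C, ← derivative_map, ← hPdef] at e2
    rw [← hcE] at e2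
    rw [← e2]
    have hA1 := eval_le hAi hz.le
    have hB1 := eval_le hBi hz.le
    rw [Polynomial.map_mul, map_C, eval_mul, eval_C, ← hcE] at hA1 hB1
    refine Valuation.map_add_le _ ?_ ?_
    · rw [map_mul]
      exact (mul_le_of_le_one_left zero_le hA1).trans (le_max_left _ _)
    · rw [map_mul]
      exact (mul_le_of_le_one_left zero_le hB1).trans (le_max_right _ _)
  have hodt : od (W.valuation E) tE = e * T := od_pow (v.valuation K) e (W.valuation E) (hw t).symm
  have hodc : od (W.valuation E) cE = e * od (v.valuation K) (c : K) :=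
    od_pow (v.valuation K) e (W.valuation E) (hw (c : K)).symm
  have hB : od (W.valuation E) cE ≤ b * od (W.valuation E) tE := by
    rw [hodt, hodc]
    have h1 : od (v.valuation K) (c : K) ≤ b := Int.self_le_toNat _
    have h2 : (1 : ℤ) ≤ T := hT
    have h3 : (0 : ℤ) ≤ e := by positivity
    have h4 : (0 : ℤ) ≤ b := by positivity
    have h5 : (e : ℤ) * od (v.valuation K) (c : K) ≤ e * b :=
      mul_le_mul_of_nonneg_left h1 h3
    have h6 : (e : ℤ) * b * 1 ≤ e * b * T :=
      mul_le_mul_of_nonneg_left h2 (mul_nonneg h3 h4)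
    linarith
  have h7 := inner_collision hq hP.deg hP.lead.le htE0 htE1 hPt hcE0 hbez hB hx hy heq hne
  rw [hodt] at h7
  have h9 : ((q ^ N : ℕ) : ℤ) ≤ ((q ^ (b + 1) * T.toNat * e : ℕ) : ℤ) := by
    push_cast
    rw [Int.toNat_of_nonneg hT.le]
    refine h7.trans (le_of_eq ?_)
    ring
  exact_mod_cast h9

/-- **The three regions.** -/
theorem region {d : ℕ} (hd : 2 ≤ d) {c : K} (hc0 : c ≠ 0) (v : HeightOneSpectrum (𝓞 K))
    (hvc : v.valuation K c < 1) : ∃ C1 : ℕ, 0 < C1 ∧ ∀ (E : Type*) [Field E] [NumberField E]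
      [Algebra K E] (W : HeightOneSpectrum (𝓞 E)) (e : ℕ), 0 < e →
      (∀ a : K, v.valuation K a ^ e = W.valuation E (algebraMap K E a)) →
      ∀ (x y ω : E) (N o : ℕ), (1 < W.valuation E x → 1 < W.valuation E y →
        W.valuation E (x / y) = 1 → W.valuation E ((x / y) ^ o - 1) < 1) → 0 < o →
      (fun z => z ^ d + algebraMap K E c)^[N] x =
        ω * (fun z => z ^ d + algebraMap K E c)^[N] y →
      (fun z => z ^ d + algebraMap K E c)^[N] x ≠ (fun z => z ^ d + algebraMap K E c)^[N] y →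
      ω ^ d = 1 → ∀ ℓ : ℕ, ℓ.Prime → ℓ ∣ d → W.valuation E (ℓ : E) = 1 → ℓ ∣ orderOf ω →
      d ^ N ≤ C1 * e ∨ N < o ∨ (W.valuation E x = 1 ∧ W.valuation E y = 1 ∧
        Cl (W.valuation E) ((x / y) ^ d ^ N) ω) := by
  obtain ⟨C1, hC1, hin⟩ := inner_le (X ^ d + C c) hd v (pr_unicrit (by omega) hvc)
    (crit_unicrit hd hc0)
  refine ⟨C1, hC1, ?_⟩
  intro E _ _ _ W e he hw x y ω N o hfar ho hcol hne hω ℓ hℓ hℓd hℓW hℓω
  set w := W.valuation E with hwdef
  set cE := algebraMap K E c with hcE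
  have hcE1 : w cE < 1 := by rw [hcE, ← hw]; exact pow_lt_one₀ zero_le hvc (by omega)
  have hPR : PR w d (X ^ d + C cE) := pr_unicrit (by omega) hcE1
  have hfun : (fun z : E => (X ^ d + C cE : E[X]).eval z) = fun z => z ^ d + cE := by
    funext z
    simp
  have hω1 : w ω = 1 := val_root (by omega) hω
  have hcol' : (fun z => (X ^ d + C cE : E[X]).eval z)^[N] x =
      ω * (fun z => (X ^ d + C cE : E[X]).eval z)^[N] y := by rw [hfun]; exact hcol
  have hne' : (fun z => (X ^ d + C cE : E[X]).eval z)^[N] x ≠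
      (fun z => (X ^ d + C cE : E[X]).eval z)^[N] y := by rw [hfun]; exact hne
  have hside : w x < 1 ↔ w y < 1 := by
    constructor
    · intro hx
      by_contra hcon
      push Not at hcon
      have h1 := hPR.iter_small (by omega) hx N
      rw [hcol', map_mul, hω1, one_mul, hPR.iter_val hcon] at h1
      exact absurd (one_le_pow₀ hcon) (not_le.mpr h1)
    · intro hy
      by_contra hcon
      push Not at hcon
      have h1 := hPR.iter_small (by omega) hy N
      have h2 := hPR.iter_val hcon N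
      rw [hcol', map_mul, hω1, one_mul] at h2
      rw [h2] at h1
      exact absurd (one_le_pow₀ hcon) (not_le.mpr h1)
  rcases lt_or_ge (w x) 1 with hx | hx
  · left
    refine hin E W e he hw x y N ?_ ?_ hx (hside.mp hx)
    · rw [map_unicrit, Function.iterate_succ_apply', Function.iterate_succ_apply', hcol]
      change (ω * _) ^ d + cE = _ ^ d + cE
      rw [mul_pow, hω, one_mul]
    · rw [map_unicrit]
      exact hne
  · have hy : 1 ≤ w y := by
      by_contra hcon
      push Not at hcon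
      exact absurd (hside.mpr hcon) (not_lt.mpr hx)
    have hy0 : y ≠ 0 := by
      rintro rfl; rw [map_zero] at hy; exact absurd zero_lt_one (not_lt.mpr hy)
    have hxy : w x = w y := by
      have h3 := congrArg w hcol'
      rw [map_mul, hω1, one_mul, hPR.iter_val hx, hPR.iter_val hy] at h3
      exact (pow_left_inj₀ zero_le zero_le (by positivity)).mp h3
    have hρ1 : w (x / y) = 1 := by
      rw [map_div₀, hxy, div_self (u_ne w hy0)]
    have hYv : 1 ≤ w ((fun z => (X ^ d + C cE : E[X]).eval z)^[N] y) := by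
      rw [hPR.iter_val hy]; exact one_le_pow₀ hy
    have hY0 : (fun z => (X ^ d + C cE : E[X]).eval z)^[N] y ≠ 0 := by
      intro h0
      rw [h0, map_zero] at hYv
      exact absurd zero_lt_one (not_lt.mpr hYv)
    have hcl : Cl w ((x / y) ^ d ^ N) ω := by
      have h3 := ratio hPR hx hy N
      rw [hcol', mul_div_cancel_right₀ _ hY0] at h3
      exact h3.symm
    rcases hy.lt_or_eq with hylt | hyeq
    · right; left
      have hn := hfar (by rw [hxy]; exact hylt) hylt hρ1
      have hof : 0 < orderOf ω :=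
        (isOfFinOrder_iff_pow_eq_one.mpr ⟨d, by omega, hω⟩).orderOf_pos
      obtain ⟨n, hn'⟩ := hℓω
      have hn0 : 0 < n := by
        rcases Nat.eq_zero_or_pos n with h | h
        · rw [h, mul_zero] at hn'; omega
        · exact h
      have h1 : (ω ^ n) ^ ℓ = 1 := by rw [← pow_mul, mul_comm, ← hn', pow_orderOf_eq_one]
      have h2 : ω ^ n ≠ 1 := by
        intro h
        have h3 := Nat.le_of_dvd hn0 (orderOf_dvd_of_pow_eq_one h)
        rw [hn'] at h3
        have := hℓ.two_le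
        nlinarith
      have h3 : w ((x / y) ^ (d ^ N * n) - ω ^ n) < 1 := by
        have h4 := hcl.pow n
        unfold Cl at h4
        rw [map_pow, hω1, one_pow, ← pow_mul] at h4
        exact h4
      have h4 := order_dvd hρ1 hℓ hℓW h1 h2 (M := d ^ N * n) (s := N) (by positivity)
        ((pow_dvd_pow_of_dvd hℓd N).mul_right n) h3 hn
      have h5 := Nat.le_of_dvd ho h4
      have h6 : N + 1 < ℓ ^ (N + 1) := Nat.lt_pow_self hℓ.one_lt
      omega
    · right; right
      exact ⟨hxy.trans hyeq.symm, hyeq.symm, hcl⟩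

/-- The hypothesis at the points outside the closed unit disc. -/
def FarHyp (v : HeightOneSpectrum (𝓞 K)) (o : ℕ) {E : Type*} [Field E] [NumberField E]
    [Algebra K E] (x y : E) : Prop :=
  ∀ (W : HeightOneSpectrum (𝓞 E)) (e : ℕ), 0 < e →
    (∀ a : K, v.valuation K a ^ e = W.valuation E (algebraMap K E a)) →
    1 < W.valuation E x → 1 < W.valuation E y → W.valuation E (x / y) = 1 →
    W.valuation E ((x / y) ^ o - 1) < 1

theorem card_residue {p ℓ : ℕ} (hp : p.Prime) (hℓ : ℓ.Prime) (hpℓ : p ≠ ℓ)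
    (v : HeightOneSpectrum (𝓞 K)) (hv : v.valuation K (ℓ : K) < 1) :
    2 ≤ Nat.card (𝓞 K ⧸ v.asIdeal) ∧ ¬ p ∣ Nat.card (𝓞 K ⧸ v.asIdeal) := by
  have hvmax : v.asIdeal.IsMaximal := v.isMaximal
  let _ : Field (𝓞 K ⧸ v.asIdeal) := Ideal.Quotient.field v.asIdeal
  have hfin : Finite (𝓞 K ⧸ v.asIdeal) := Ideal.finiteQuotientOfFreeOfNeBot _ v.ne_bot
  let _ : Fintype (𝓞 K ⧸ v.asIdeal) := Fintype.ofFinite _
  have hcard := Fintype.one_lt_card (α := 𝓞 K ⧸ v.asIdeal)
  rw [Nat.card_eq_fintype_card]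
  refine ⟨hcard, ?_⟩
  have h1 : ((ℓ : ℕ) : 𝓞 K ⧸ v.asIdeal) = 0 := by
    have h2 : ((ℓ : ℕ) : 𝓞 K) ∈ v.asIdeal := by
      rw [← v.valuation_lt_one_iff_mem (K := K)]
      have h5 : algebraMap (𝓞 K) K ((ℓ : ℕ) : 𝓞 K) = ((ℓ : ℕ) : K) :=
        map_natCast (algebraMap (𝓞 K) K) _
      rw [← h5] at hv
      exact hv
    rw [← Ideal.Quotient.eq_zero_iff_mem, map_natCast] at h2
    exact h2
  have hchar : CharP (𝓞 K ⧸ v.asIdeal) ℓ := (CharP.charP_iff_prime_eq_zero hℓ).mpr h1
  obtain ⟨n, -, hn⟩ := FiniteField.card (𝓞 K ⧸ v.asIdeal) ℓ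
  rw [hn]
  intro h
  exact hpℓ ((Nat.prime_dvd_prime_iff_eq hp hℓ).mp (hp.dvd_of_dvd_pow h))

theorem val_nat_lt {v : HeightOneSpectrum (𝓞 K)} {ℓ : ℕ} (hv : v.valuation K (ℓ : K) < 1)
    {E : Type*} [Field E] [NumberField E] [Algebra K E] {W : HeightOneSpectrum (𝓞 E)} {e : ℕ}
    (he : 0 < e) (hw : ∀ a : K, v.valuation K a ^ e = W.valuation E (algebraMap K E a)) :
    W.valuation E (ℓ : E) < 1 := by
  have := hw (ℓ : K)
  rw [map_natCast (algebraMap K E)] at this
  rw [← this]
  exact pow_lt_one₀ zero_le hv (by omega)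

/-- **The prime divides the order of the root of unity.** -/
theorem tame_part {d : ℕ} (hd : 2 ≤ d) {c : K} (hc0 : c ≠ 0) {p ℓ : ℕ} (hp : p.Prime)
    (hℓ : ℓ.Prime) (hpℓ : p ≠ ℓ) {a : ℕ} (had : p ^ a ∣ d) (hpd : p ∣ d)
    (v : HeightOneSpectrum (𝓞 K)) (hv : v.valuation K (ℓ : K) < 1) (hvc : v.valuation K c < 1)
    {o : ℕ} (ho : 0 < o) :
    ∃ C : ℕ, 0 < C ∧ ∀ (E : Type*) [Field E] [NumberField E] [Algebra K E] (x y ω : E),
      FarHyp v o x y → ∀ N : ℕ,
      (fun z => z ^ d + algebraMap K E c)^[N] x =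
        ω * (fun z => z ^ d + algebraMap K E c)^[N] y →
      (fun z => z ^ d + algebraMap K E c)^[N] x ≠ (fun z => z ^ d + algebraMap K E c)^[N] y →
      ω ^ d = 1 → p ∣ orderOf ω →
      d ^ N ≤ C * Module.finrank K E ∨ p ^ (a * N) ∣ C * Module.finrank K E := by
  obtain ⟨C1, hC1, hreg⟩ := region hd hc0 v hvc
  obtain ⟨hQ2, hpQ⟩ := card_residue hp hℓ hpℓ v hv
  obtain ⟨C2, hC2, hlte⟩ := lte_dvd hp hQ2 hpQ
  refine ⟨C1 * C2 * d ^ o, by positivity, ?_⟩
  intro E _ _ _ x y ω hfar N hcol hne hω hpω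
  have hfin : 0 < Module.finrank K E := Module.finrank_pos
  by_cases hbig : d ^ N ≤ C1 * C2 * d ^ o * Module.finrank K E
  · exact Or.inl hbig
  right
  have hdo : 0 < d ^ o := by positivity
  refine dvd_of_all v ?_
  intro W e r he hr hw hcard hle
  have hWℓ := val_nat_lt hv he hw
  have hWp : W.valuation E (p : E) = 1 :=
    unit_of_not_dvd hℓ hWℓ (fun h => hpℓ ((Nat.prime_dvd_prime_iff_eq hℓ hp).mp h).symm)
  rcases hreg E W e he hw x y ω N o (hfar W e he hw) ho hcol hne hω p hp hpd hWp hpω with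
    h | h | ⟨hx, hy, hcl⟩
  · exfalso
    apply hbig
    have he2 : e ≤ Module.finrank K E := (Nat.le_mul_of_pos_right e hr).trans hle
    calc d ^ N ≤ C1 * e := h
      _ ≤ C1 * Module.finrank K E := Nat.mul_le_mul_left _ he2
      _ ≤ C1 * C2 * d ^ o * Module.finrank K E := by
        refine Nat.mul_le_mul_right _ ?_
        rw [mul_assoc]
        exact Nat.le_mul_of_pos_right _ (by positivity)
  · exfalso
    apply hbig
    calc d ^ N ≤ d ^ o := Nat.pow_le_pow_right (by omega) h.le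
      _ ≤ C1 * C2 * d ^ o := Nat.le_mul_of_pos_left _ (by positivity)
      _ ≤ _ := Nat.le_mul_of_pos_right _ hfin
  · have hz : W.valuation E (x / y) = 1 := by rw [map_div₀, hx, hy, div_one]
    have h1 := residue_dvd W hp hWp (by omega : 0 < d) had hω hpω hz hcl
    rw [hcard] at h1
    have h2 := hlte r (a * N + 1) hr h1
    have h3 : p ^ (a * N) ∣ C2 * r := (pow_dvd_pow p (Nat.le_succ _)).trans h2
    refine h3.trans ⟨C1 * d ^ o * e, ?_⟩
    ring

/-- **The prime does not divide the order of the root of unity.** -/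
theorem wild_part {d : ℕ} (hd : 2 ≤ d) {c : K} (hc0 : c ≠ 0) {p : ℕ} (hp : p.Prime)
    {a b : ℕ} (ha : 0 < a) (hpb : ¬ p ∣ b) (hdab : d = p ^ a * b)
    (v : HeightOneSpectrum (𝓞 K)) (hv : v.valuation K (p : K) < 1) (hvc : v.valuation K c < 1)
    {o : ℕ} (ho : 0 < o) :
    ∃ C : ℕ, 0 < C ∧ ∀ (E : Type*) [Field E] [NumberField E] [Algebra K E] (x y ω : E),
      FarHyp v o x y → ∀ N : ℕ,
      (fun z => z ^ d + algebraMap K E c)^[N] x =
        ω * (fun z => z ^ d + algebraMap K E c)^[N] y →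
      (fun z => z ^ d + algebraMap K E c)^[N] x ≠ (fun z => z ^ d + algebraMap K E c)^[N] y →
      ω ^ d = 1 → ω ≠ 1 → ¬ p ∣ orderOf ω →
      d ^ N ≤ C * Module.finrank K E ∨ p ^ (a * N) ∣ C * Module.finrank K E := by
  obtain ⟨C1, hC1, hreg⟩ := region hd hc0 v hvc
  obtain ⟨C2, hC2, hwild⟩ := wild_dvd hp ha hpb v hv hc0 hvc
  refine ⟨C1 * C2 * d ^ o, by positivity, ?_⟩
  intro E _ _ _ x y ω hfar N hcol hne hω hω1 hpω
  have hfin : 0 < Module.finrank K E := Module.finrank_pos
  by_cases hbig : d ^ N ≤ C1 * C2 * d ^ o * Module.finrank K E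
  · exact Or.inl hbig
  right
  obtain ⟨ℓ, hℓ, hℓω⟩ := Nat.exists_prime_and_dvd (n := orderOf ω)
    (fun h => hω1 (orderOf_eq_one_iff.mp h))
  have hℓd : ℓ ∣ d := hℓω.trans (orderOf_dvd_of_pow_eq_one hω)
  have hdo : 0 < d ^ o := by positivity
  refine dvd_of_all v ?_
  intro W e r he hr hw hcard hle
  have hWp := val_nat_lt hv he hw
  have hWℓ : W.valuation E (ℓ : E) = 1 :=
    unit_of_not_dvd hp hWp (fun h => hpω (by
      rw [(Nat.prime_dvd_prime_iff_eq hp hℓ).mp h]; exact hℓω))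
  rcases hreg E W e he hw x y ω N o (hfar W e he hw) ho hcol hne hω ℓ hℓ hℓd hWℓ hℓω with
    h | h | ⟨hx, hy, -⟩
  · exfalso
    apply hbig
    have he2 : e ≤ Module.finrank K E := (Nat.le_mul_of_pos_right e hr).trans hle
    calc d ^ N ≤ C1 * e := h
      _ ≤ C1 * Module.finrank K E := Nat.mul_le_mul_left _ he2
      _ ≤ C1 * C2 * d ^ o * Module.finrank K E := by
        refine Nat.mul_le_mul_right _ ?_
        rw [mul_assoc]
        exact Nat.le_mul_of_pos_right _ (by positivity)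
  · exfalso
    apply hbig
    calc d ^ N ≤ d ^ o := Nat.pow_le_pow_right (by omega) h.le
      _ ≤ C1 * C2 * d ^ o := Nat.le_mul_of_pos_left _ (by positivity)
      _ ≤ _ := Nat.le_mul_of_pos_right _ hfin
  · rw [hdab] at hcol
    have h3 := hwild E W e he hw x y ω N (orderOf ω) hx hy hcol (pow_orderOf_eq_one ω) hpω hω1
    rw [mul_comm a N]
    refine h3.trans ⟨C1 * d ^ o * r, ?_⟩
    ring

universe w

/-- **The degree bound.** -/
theorem degree_bound {d : ℕ} (hd : 2 ≤ d) {c : K} (hc0 : c ≠ 0)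
    (hnp : ∀ p, p.Prime → p ∣ d → ∃ ℓ, ℓ.Prime ∧ ℓ ∣ d ∧ p ≠ ℓ)
    (v : ℕ → HeightOneSpectrum (𝓞 K))
    (hv : ∀ p, p.Prime → p ∣ d → (v p).valuation K (p : K) < 1 ∧ (v p).valuation K c < 1)
    {o : ℕ} (ho : 0 < o) :
    ∃ C0 : ℕ, 0 < C0 ∧ ∀ (E : Type w) [Field E] [NumberField E] [Algebra K E] (x y : E),
      (∀ p, p.Prime → p ∣ d → FarHyp (v p) o x y) → ∀ N : ℕ,
      (fun z => z ^ d + algebraMap K E c)^[N + 1] x =
        (fun z => z ^ d + algebraMap K E c)^[N + 1] y →
      (fun z => z ^ d + algebraMap K E c)^[N] x ≠ (fun z => z ^ d + algebraMap K E c)^[N] y →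
      d ^ N ≤ C0 * Module.finrank K E := by
  have hd0 : d ≠ 0 := by omega
  have key : ∀ p, p.Prime → p ∣ d → ∃ C : ℕ, 0 < C ∧ ∀ (E : Type w) [Field E] [NumberField E]
      [Algebra K E] (x y ω : E), (∀ p, p.Prime → p ∣ d → FarHyp (v p) o x y) → ∀ N : ℕ,
      (fun z => z ^ d + algebraMap K E c)^[N] x =
        ω * (fun z => z ^ d + algebraMap K E c)^[N] y →
      (fun z => z ^ d + algebraMap K E c)^[N] x ≠ (fun z => z ^ d + algebraMap K E c)^[N] y →
      ω ^ d = 1 → ω ≠ 1 →
      d ^ N ≤ C * Module.finrank K E ∨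
        p ^ (d.factorization p * N) ∣ C * Module.finrank K E := by
    intro p hp hpd
    obtain ⟨ℓ, hℓ, hℓd, hpℓ⟩ := hnp p hp hpd
    obtain ⟨C1, hC1, h1⟩ := tame_part hd hc0 hp hℓ hpℓ (Nat.ordProj_dvd d p) hpd (v ℓ)
      (hv ℓ hℓ hℓd).1 (hv ℓ hℓ hℓd).2 ho
    have ha : 0 < d.factorization p := hp.factorization_pos_of_dvd hd0 hpd
    obtain ⟨C2, hC2, h2⟩ := wild_part hd hc0 hp ha (Nat.not_dvd_ordCompl hp hd0)
      (Nat.ordProj_mul_ordCompl_eq_self d p).symm (v p) (hv p hp hpd).1 (hv p hp hpd).2 ho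
    refine ⟨C1 * C2, by positivity, ?_⟩
    intro E _ _ _ x y ω hfar N hcol hne hω hω1
    by_cases hpω : p ∣ orderOf ω
    · rcases h1 E x y ω (hfar ℓ hℓ hℓd) N hcol hne hω hpω with h | h
      · left
        exact h.trans (Nat.mul_le_mul_right _ (Nat.le_mul_of_pos_right _ hC2))
      · right
        refine h.trans ⟨C2, by ring⟩
    · rcases h2 E x y ω (hfar p hp hpd) N hcol hne hω hω1 hpω with h | h
      · left
        exact h.trans (Nat.mul_le_mul_right _ (Nat.le_mul_of_pos_left _ hC1))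
      · right
        refine h.trans ⟨C1, by ring⟩
  choose! C hC0 hC using key
  refine ⟨∏ p ∈ d.primeFactors, C p, Finset.prod_pos fun p hp =>
    hC0 p (Nat.prime_of_mem_primeFactors hp) (Nat.dvd_of_mem_primeFactors hp), ?_⟩
  intro E _ _ _ x y hfar N heq hne
  have hfin : 0 < Module.finrank K E := Module.finrank_pos
  set X' := (fun z => z ^ d + algebraMap K E c)^[N] x with hX'
  set Y' := (fun z => z ^ d + algebraMap K E c)^[N] y with hY'
  have hpow : X' ^ d = Y' ^ d := by
    rw [Function.iterate_succ_apply', Function.iterate_succ_apply'] at heq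
    exact add_right_cancel heq
  have hY0 : Y' ≠ 0 := by
    intro h0
    rw [h0, zero_pow hd0] at hpow
    exact hne ((pow_eq_zero_iff hd0).mp hpow |>.trans h0.symm)
  set ω := X' / Y' with hω
  have hcol : X' = ω * Y' := by rw [hω, div_mul_cancel₀ _ hY0]
  have hωd : ω ^ d = 1 := by rw [hω, div_pow, hpow, div_self (pow_ne_zero _ hY0)]
  have hω1 : ω ≠ 1 := by
    intro h1
    rw [h1, one_mul] at hcol
    exact hne hcol
  set M := (∏ p ∈ d.primeFactors, C p) * Module.finrank K E with hM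
  have hPpos : 0 < ∏ p ∈ d.primeFactors, C p := Finset.prod_pos fun p hp =>
    hC0 p (Nat.prime_of_mem_primeFactors hp) (Nat.dvd_of_mem_primeFactors hp)
  have hMpos : 0 < M := Nat.mul_pos hPpos hfin
  by_cases hbig : ∃ p, p.Prime ∧ p ∣ d ∧ d ^ N ≤ C p * Module.finrank K E
  · obtain ⟨p, hp, hpd, h⟩ := hbig
    refine h.trans (Nat.mul_le_mul_right _ (Nat.le_of_dvd hPpos ?_))
    exact Finset.dvd_prod_of_mem C (Nat.mem_primeFactors.mpr ⟨hp, hpd, hd0⟩)
  · push Not at hbig
    refine Nat.le_of_dvd hMpos ?_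
    rw [← Nat.factorization_prime_le_iff_dvd (pow_ne_zero _ hd0) hMpos.ne']
    intro p hp
    rw [Nat.factorization_pow, Finsupp.smul_apply, smul_eq_mul]
    by_cases hpd : p ∣ d
    · rcases hC p hp hpd E x y ω hfar N hcol hne hωd hω1 with h | h
      · exact absurd h (not_le.mpr (hbig p hp hpd))
      · rw [mul_comm, ← hp.pow_dvd_iff_le_factorization hMpos.ne']
        refine h.trans (Nat.mul_dvd_mul_right ?_ _)
        exact Finset.dvd_prod_of_mem C (Nat.mem_primeFactors.mpr ⟨hp, hpd, hd0⟩)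
    · rw [Nat.factorization_eq_zero_of_not_dvd hpd, mul_zero]
      exact Nat.zero_le _

end Pool.Agent.UHZ
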