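import Pool.Agent.UHU.WMain
import Pool.Agent.UHU.Mono
import Pool.Agent.UHU.Hom

/-!
# Outside the closed unit disc: integral polynomials, curves with good reduction at infinity
-/

set_option autoImplicit false

open IsDedekindDomain NumberField Polynomial
open scoped WithZero

namespace Pool.Agent.UHZ

open Pool.Agent.Arb.DB (u_ne)
open Pool.Agent.UH2 (IntP)
open Pool.Agent.UHT (Cl)
open Pool.Agent.UHJ (Far)
open Pool.Agent.UHU (PR cl_div mul_sub_one_lt unit_pow_sub_mul pr_iff_red red_lead red red_eq_zero mIdeal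
  lift_inj exists_order' finsupp_two_ext aeval_two)

section val
variable {F : Type*} [Field F] {u : Valuation F ℤᵐ⁰}

/-- Integral, with a unit as leading coefficient. -/
structure PI (u : Valuation F ℤᵐ⁰) (q : ℕ) (P : F[X]) : Prop where
  deg : P.natDegree ≤ q
  lead : u (P.coeff q) = 1
  int : ∀ i, u (P.coeff i) ≤ 1

theorem pi_of_pr {q : ℕ} {P : F[X]} (h : PR u q P) : PI u q P :=
  ⟨h.deg, h.lead, h.intP⟩

theorem PI.far {q : ℕ} {P : F[X]} (h : PI u q P) {y : F} (hy : 1 < u y) : Far u q P 1 y := by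
  have h0 : 0 < u y := zero_lt_one.trans hy
  refine ⟨?_, ?_, fun i hi => ?_⟩
  · rintro rfl
    rw [map_zero] at h0
    exact lt_irrefl _ h0
  · rw [h.lead, one_mul]
    exact one_le_pow₀ hy.le
  · rw [h.lead, map_one, one_mul, one_mul]
    calc u (P.coeff i) * u y ^ i ≤ 1 * u y ^ i :=
          mul_le_mul_of_nonneg_right (h.int i) zero_le
      _ = u y ^ i := one_mul _
      _ < u y ^ q := pow_lt_pow_right₀ hy hi

theorem PI.val {q : ℕ} {P : F[X]} (h : PI u q P) {y : F} (hy : 1 < u y) :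
    u (P.eval y) = u y ^ q := by
  rw [(h.far hy).val h.deg (by rw [map_one]), h.lead, one_mul]

theorem PI.small {q : ℕ} {P : F[X]} (h : PI u q P) {y : F} (hy : u y ≤ 1) :
    u (P.eval y) ≤ 1 := by
  rw [eval_eq_sum_range' (Nat.lt_succ_of_le h.deg)]
  refine Valuation.map_sum_le u fun i _ => ?_
  rw [map_mul, map_pow]
  exact mul_le_one₀ (h.int i) zero_le (pow_le_one₀ zero_le hy)

theorem PI.base {K E : Type*} [Field K] [Field E] [Algebra K E] {u : Valuation K ℤᵐ⁰}
    {w : Valuation E ℤᵐ⁰} {e : ℕ} (hw : ∀ a : K, u a ^ e = w (algebraMap K E a))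
    {q : ℕ} {P : K[X]} (h : PI u q P) : PI w q (P.map (algebraMap K E)) := by
  refine ⟨natDegree_map_le.trans h.deg, ?_, fun i => ?_⟩
  · rw [coeff_map, ← hw, h.lead, one_pow]
  · rw [coeff_map, ← hw]
    exact pow_le_one₀ zero_le (h.int i)

/-- **Commuting polynomials are integral.** -/
theorem PI.of_comm {q : ℕ} (hq : 2 ≤ q) {P : F[X]} (hd : P.natDegree = q) (h : PR u q P)
    {g : F[X]} (hg : 1 ≤ g.natDegree)
    (hc : g.comp P = P.comp g) : PI u g.natDegree g := by
  set D := g.natDegree with hD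
  have hg0 : g ≠ 0 := by
    rintro rfl
    rw [natDegree_zero] at hD
    omega
  -- the leading coefficient
  have hlead : u (g.coeff D) = 1 := by
    have e1 := congrArg leadingCoeff hc
    rw [leadingCoeff_comp (by omega), leadingCoeff_comp (by omega), hd] at e1
    have e2 := congrArg u e1
    rw [map_mul, map_mul, map_pow, map_pow] at e2
    have e3 : u P.leadingCoeff = 1 := by rw [leadingCoeff, hd]; exact h.lead
    rw [e3, one_pow, mul_one, one_mul] at e2
    have e4 : u g.leadingCoeff ≠ 0 := u_ne u (leadingCoeff_ne_zero.mpr hg0)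
    obtain ⟨k, rfl⟩ : ∃ k, q = k + 1 := ⟨q - 1, by omega⟩
    rw [pow_succ] at e2
    have e5 : u g.leadingCoeff ^ k = 1 := mul_right_cancel₀ e4 (by rw [one_mul]; exact e2.symm)
    exact (pow_eq_one_iff_of_nonneg zero_le (by omega)).mp e5
  obtain ⟨PA, hPA⟩ := h.intP.lift
  -- integrality
  have hint : IntP u g := by
    by_contra hcon
    unfold IntP at hcon
    push Not at hcon
    obtain ⟨i0, hi0⟩ := hcon
    obtain ⟨j, hj, hjm⟩ := Finset.exists_max_image (Finset.range (D + 1))
      (fun i => u (g.coeff i)) ⟨0, Finset.mem_range.mpr (by omega)⟩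
    have hall : ∀ i, u (g.coeff i) ≤ u (g.coeff j) := by
      intro i
      rcases Nat.lt_or_ge i (D + 1) with hi | hi
      · exact hjm i (Finset.mem_range.mpr hi)
      · rw [coeff_eq_zero_of_natDegree_lt (by omega), map_zero]; exact zero_le
    set c := g.coeff j with hcdef
    have hc1 : 1 < u c := hi0.trans_le (hall i0)
    have hc0 : c ≠ 0 := by
      intro h0
      rw [h0, map_zero] at hc1
      exact absurd hc1 (not_lt.mpr zero_le)
    have huc0 : u c ≠ 0 := u_ne u hc0
    set g1 := C c⁻¹ * g with hg1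
    have hg1int : IntP u g1 := by
      intro i
      rw [hg1, coeff_C_mul, map_mul, map_inv₀, inv_mul_le_iff₀ (zero_lt_iff.mpr huc0), mul_one]
      exact hall i
    obtain ⟨gA, hgA⟩ := hg1int.lift
    -- the scaled polynomial
    set G := C ((c ^ q)⁻¹) * P.comp (C c * X) with hG
    have hGc : ∀ i, G.coeff i = (c ^ q)⁻¹ * (P.coeff i * c ^ i) := by
      intro i
      rw [hG, coeff_C_mul, comp_C_mul_X_coeff]
    have hGpr : PR u q G := by
      refine ⟨?_, ?_, fun i hi => ?_⟩
      · rw [natDegree_le_iff_coeff_eq_zero]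
        intro i hi
        rw [hGc, coeff_eq_zero_of_natDegree_lt (by omega), zero_mul, mul_zero]
      · rw [hGc, map_mul, map_inv₀, map_mul, h.lead, one_mul, map_pow,
          inv_mul_cancel₀ (pow_ne_zero _ huc0)]
      · rw [hGc, map_mul, map_inv₀, map_mul, map_pow, map_pow,
          inv_mul_lt_iff₀ (pow_pos (zero_lt_iff.mpr huc0) _), mul_one]
        calc u (P.coeff i) * u c ^ i < 1 * u c ^ i :=
              mul_lt_mul_of_pos_right (h.low i hi) (pow_pos (zero_lt_iff.mpr huc0) _)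
          _ = u c ^ i := one_mul _
          _ ≤ u c ^ q := pow_le_pow_right₀ hc1.le hi.le
    obtain ⟨GA, hGA⟩ := hGpr.intP.lift
    have hGred := (pr_iff_red hGA hGpr.deg hGpr.lead).mp hGpr
    have hGl := red_lead hGA hGpr.lead
    -- the identity
    have hγ : u ((c ^ q)⁻¹ * c) ≤ 1 ∧ u ((c ^ q)⁻¹ * c) < 1 := by
      have : u ((c ^ q)⁻¹ * c) < 1 := by
        rw [map_mul, map_inv₀, map_pow, inv_mul_lt_iff₀ (pow_pos (zero_lt_iff.mpr huc0) _),
          mul_one]
        calc u c = u c ^ 1 := (pow_one _).symm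
          _ < u c ^ q := pow_lt_pow_right₀ hc1 (by omega)
      exact ⟨this.le, this⟩
    have hgcg : g = C c * g1 := by
      rw [hg1, ← mul_assoc, ← C_mul, mul_inv_cancel₀ hc0, C_1, one_mul]
    have hid : G.comp g1 = C ((c ^ q)⁻¹ * c) * g1.comp P := by
      rw [hG, mul_comp, C_comp, comp_assoc, mul_comp, C_comp, X_comp, ← hgcg, ← hc]
      conv_lhs => rw [hgcg]
      rw [mul_comp, C_comp, ← mul_assoc, ← C_mul]
    have hidA : GA.comp gA = C (⟨(c ^ q)⁻¹ * c, hγ.1⟩ : u.integer) * gA.comp PA := by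
      apply lift_inj
      rw [Polynomial.map_comp, Polynomial.map_mul, Polynomial.map_comp, hGA, hgA, hPA, map_C]
      exact hid
    have hidR := congrArg (Polynomial.map (red u)) hidA
    have hγ0 : red u (⟨(c ^ q)⁻¹ * c, hγ.1⟩ : u.integer) = 0 := (red_eq_zero u).mpr hγ.2
    rw [Polynomial.map_comp, hGred, Polynomial.map_mul, map_C, hγ0, C_0,
      zero_mul, mul_comp, C_comp, pow_comp, X_comp] at hidR
    have hgA0 : gA.map (red u) = 0 := by
      rcases mul_eq_zero.mp hidR with h3 | h3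
      · exact absurd (C_eq_zero.mp h3) hGl
      · exact pow_eq_zero_iff (by omega) |>.mp h3
    have h4 : (gA.map (red u)).coeff j = (0 : (u.integer ⧸ mIdeal u)[X]).coeff j :=
      congrArg (fun p => p.coeff j) hgA0
    rw [coeff_map, coeff_zero, red_eq_zero] at h4
    have h5 : (gA.coeff j : F) = g1.coeff j := by rw [← hgA, coeff_map]; rfl
    rw [h5, hg1, coeff_C_mul, ← hcdef, inv_mul_cancel₀ hc0, map_one] at h4
    exact lt_irrefl _ h4
  exact ⟨le_rfl, hlead, hint⟩

/-- The ratio of `f^r(X)` and `g(f^r(Y))`. -/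
theorem ratio_far {w : Valuation F ℤᵐ⁰} {Q D : ℕ} {G g : F[X]}
    (hG : PI w Q G) (hg : PI w D g) (hQ : 1 ≤ Q) (hD : 1 ≤ D) {a b : ℕ} (hb : 0 < b)
    (hab : D * b = a) {o o1 : ℕ} {ξ η : F}
    (hord : 1 < w η → w ξ = w η → w ((ξ / η) ^ o - 1) < 1)
    (hκ : w ((G.coeff Q / (g.coeff D * G.coeff Q ^ D)) ^ o1 - 1) < 1)
    (hx : 1 < w (G.eval (ξ ^ a))) (hy : 1 < w (g.eval (G.eval (η ^ b))))
    (hxy : w (G.eval (ξ ^ a) / g.eval (G.eval (η ^ b))) = 1) :
    w ((G.eval (ξ ^ a) / g.eval (G.eval (η ^ b))) ^ (o * o1) - 1) < 1 := by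
  have ha : 0 < a := by rw [← hab]; exact Nat.mul_pos hD hb
  have hX : 1 < w (ξ ^ a) := by
    by_contra hcon
    push Not at hcon
    exact absurd hx (not_lt.mpr (hG.small hcon))
  have hGY : 1 < w (G.eval (η ^ b)) := by
    by_contra hcon
    push Not at hcon
    exact absurd hy (not_lt.mpr (hg.small hcon))
  have hY : 1 < w (η ^ b) := by
    by_contra hcon
    push Not at hcon
    exact absurd hGY (not_lt.mpr (hG.small hcon))
  have hξ : 1 < w ξ := by
    by_contra hcon
    push Not at hcon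
    rw [map_pow] at hX
    exact absurd hX (not_lt.mpr (pow_le_one₀ zero_le hcon))
  have hη : 1 < w η := by
    by_contra hcon
    push Not at hcon
    rw [map_pow] at hY
    exact absurd hY (not_lt.mpr (pow_le_one₀ zero_le hcon))
  have hwξη : w ξ = w η := by
    have e1 : w (G.eval (ξ ^ a)) = w ξ ^ (a * Q) := by rw [hG.val hX, map_pow, ← pow_mul]
    have e2 : w (g.eval (G.eval (η ^ b))) = w η ^ (a * Q) := by
      rw [hg.val hGY, hG.val hY, map_pow, ← pow_mul, ← pow_mul, ← hab]
      congr 1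
      ring
    have h0 : w (g.eval (G.eval (η ^ b))) ≠ 0 := (zero_lt_one.trans hy).ne'
    have e3 : w (G.eval (ξ ^ a)) = w (g.eval (G.eval (η ^ b))) := by
      rw [map_div₀] at hxy
      exact (div_eq_one_iff_eq h0).mp hxy
    rw [e1, e2] at e3
    exact (pow_left_inj₀ zero_le zero_le (Nat.mul_pos ha hQ).ne').mp e3
  have hr1 : w (ξ / η) = 1 := by
    rw [map_div₀, hwξη, div_self (zero_lt_one.trans hη).ne']
  have hr2 := hord hη hwξη
  set A := G.coeff Q with hAdef
  set B := g.coeff D with hBdef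
  have hA : w A = 1 := hG.lead
  have hB : w B = 1 := hg.lead
  have ne0 : ∀ z : F, w z = 1 → z ≠ 0 := by
    intro z hz h0
    rw [h0, map_zero] at hz
    exact zero_ne_one hz
  have hA0 := ne0 A hA
  have hB0 := ne0 B hB
  have ne1 : ∀ z : F, 1 ≤ w z → z ≠ 0 := by
    intro z hz h0
    rw [h0, map_zero] at hz
    exact absurd zero_lt_one (not_lt.mpr hz)
  have hξ0 := ne1 ξ hξ.le
  have hη0 := ne1 η hη.le
  have cl1 : Cl w (G.eval (ξ ^ a)) (A * (ξ ^ a) ^ Q) := (hG.far hX).cl hG.deg (by rw [map_one])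
  have cl2 : Cl w (G.eval (η ^ b)) (A * (η ^ b) ^ Q) := (hG.far hY).cl hG.deg (by rw [map_one])
  have cl3 : Cl w (g.eval (G.eval (η ^ b))) (B * (G.eval (η ^ b)) ^ D) :=
    (hg.far hGY).cl hg.deg (by rw [map_one])
  have cl4 : Cl w (g.eval (G.eval (η ^ b))) (B * (A * (η ^ b) ^ Q) ^ D) :=
    cl3.trans ((Cl.refl hB0).mul (cl2.pow D))
  have cl5 := cl_div cl1 cl4
  have e1 : A * (ξ ^ a) ^ Q / (B * (A * (η ^ b) ^ Q) ^ D) =
      (A / (B * A ^ D)) * (ξ / η) ^ (a * Q) := by
    have e2 : ((η ^ b) ^ Q) ^ D = η ^ (a * Q) := by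
      rw [← pow_mul, ← pow_mul, ← hab]
      congr 1
      ring
    rw [mul_pow, e2, div_pow, ← pow_mul]
    field_simp
  rw [e1] at cl5
  have cl6 := cl5.pow (o * o1)
  set κ := A / (B * A ^ D) with hκdef
  have hκ1 : w κ = 1 := by
    rw [hκdef, map_div₀, map_mul, map_pow, hA, hB, one_pow, one_mul, div_one]
  have hp1 : w (κ * (ξ / η) ^ (a * Q)) = 1 := by
    rw [map_mul, map_pow, hκ1, hr1, one_pow, one_mul]
  have h1 : w ((κ * (ξ / η) ^ (a * Q)) ^ (o * o1) - 1) < 1 := by
    have e3 : (κ * (ξ / η) ^ (a * Q)) ^ (o * o1) =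
        κ ^ (o1 * o) * (ξ / η) ^ (o * (a * Q * o1)) := by
      rw [mul_pow, ← pow_mul, mul_comm o o1]
      congr 2
      ring
    rw [e3]
    exact mul_sub_one_lt (by rw [map_pow, hκ1, one_pow]) (unit_pow_sub_mul hκ1 hκ _)
      (unit_pow_sub_mul hr1 hr2 _)
  unfold Cl at cl6
  rw [map_pow w (κ * (ξ / η) ^ (a * Q)), hp1, one_pow] at cl6
  have e4 : (G.eval (ξ ^ a) / g.eval (G.eval (η ^ b))) ^ (o * o1) - 1 =
      ((G.eval (ξ ^ a) / g.eval (G.eval (η ^ b))) ^ (o * o1) -
        (κ * (ξ / η) ^ (a * Q)) ^ (o * o1)) + ((κ * (ξ / η) ^ (a * Q)) ^ (o * o1) - 1) := by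
    ring
  rw [e4]
  exact Valuation.map_add_lt w cl6 h1

end val

/-- Give `X` the weight `α` and `Y` the weight `β`. The polynomial `H` has weighted degree `κ`, its
coefficients are integral at the place `v`, and its part of weighted degree `κ` has a coefficient
which is a unit at `v`. -/
structure InfAt {K : Type*} [Field K] [NumberField K] (v : HeightOneSpectrum (𝓞 K))
    (α β κ : ℕ) (H : MvPolynomial (Fin 2) K) : Prop where
  deg : ∀ d, κ < α * d 0 + β * d 1 → H.coeff d = 0
  integral : ∀ d, v.valuation K (H.coeff d) ≤ 1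
  unit : ∃ d, α * d 0 + β * d 1 = κ ∧ v.valuation K (H.coeff d) = 1

variable {K : Type*} [Field K] [NumberField K]

/-- Give `X` the weight `α` and `Y` the weight `β`. Some term of `H` has the highest weighted degree
and, among the coefficients of `H`, the coefficient with the largest absolute value at `v`. -/
def TopMax (v : HeightOneSpectrum (𝓞 K)) (α β : ℕ) (H : MvPolynomial (Fin 2) K) : Prop :=
  ∃ d, H.coeff d ≠ 0 ∧ ∀ d', H.coeff d' ≠ 0 →
    α * d' 0 + β * d' 1 ≤ α * d 0 + β * d 1 ∧ v.valuation K (H.coeff d') ≤ v.valuation K (H.coeff d)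

theorem TopMax.infAt {v : HeightOneSpectrum (𝓞 K)} {α β : ℕ} {H : MvPolynomial (Fin 2) K}
    (h : TopMax v α β H) : ∃ (t : K) (κ : ℕ), InfAt v α β κ (MvPolynomial.C t * H) := by
  obtain ⟨d, hd0, hd⟩ := h
  have hv : 0 < v.valuation K (H.coeff d) := zero_lt_iff.mpr (u_ne _ hd0)
  refine ⟨(H.coeff d)⁻¹, α * d 0 + β * d 1, fun d' hd' => ?_, fun d' => ?_, d, rfl, ?_⟩
  · rw [MvPolynomial.coeff_C_mul]
    by_contra hcon
    exact absurd (hd d' (right_ne_zero_of_mul hcon)).1 (not_le.mpr hd')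
  · rw [MvPolynomial.coeff_C_mul, map_mul, map_inv₀]
    by_cases h0 : H.coeff d' = 0
    · rw [h0, map_zero, mul_zero]
      exact zero_le
    · rw [inv_mul_le_iff₀ hv, mul_one]
      exact (hd d' h0).2
  · rw [MvPolynomial.coeff_C_mul, inv_mul_cancel₀ hd0, map_one]

/-- **The ratio of the roots of the coordinates outside the closed unit disc** is a root of unity of
bounded order, modulo the maximal ideal, if the absolute values are the same. -/
theorem InfAt.ratio {v : HeightOneSpectrum (𝓞 K)} {α β k0 : ℕ} (hβ : 0 < β) (hα : 0 < α)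
    {H : MvPolynomial (Fin 2) K} (h : InfAt v α β k0 H) :
    ∃ o : ℕ, 0 < o ∧ ∀ (E : Type*) [Field E] [Algebra K E]
      (w : Valuation E ℤᵐ⁰) (e : ℕ), 0 < e → (∀ a : K, v.valuation K a ^ e =
        w (algebraMap K E a)) → ∀ x y : E, 1 < w y → w x = w y →
        MvPolynomial.aeval ![x ^ α, y ^ β] H = 0 → w ((x / y) ^ o - 1) < 1 := by
  classical
  set u := v.valuation K with hu
  set S := H.support.filter fun d => α * d 0 + β * d 1 = k0 with hS
  set D : K[X] := ∑ d ∈ S, C (H.coeff d) * X ^ (β * d 1) with hD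
  have hDc : ∀ i, D.coeff i = ∑ d ∈ S, if i = β * d 1 then H.coeff d else 0 := by
    intro i
    rw [hD, finsetSum_coeff]
    refine Finset.sum_congr rfl fun d _ => ?_
    rw [coeff_C_mul_X_pow]
  have hDint : ∀ i, u (D.coeff i) ≤ 1 := by
    intro i
    rw [hDc]
    refine Valuation.map_sum_le u fun d _ => ?_
    split_ifs
    · exact h.integral d
    · rw [map_zero]; exact zero_le
  have hunit : ∃ j, u (D.coeff j) = 1 := by
    obtain ⟨d, hdk, hd⟩ := h.unit
    have hd0 : H.coeff d ≠ 0 := by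
      intro h0
      rw [h0, map_zero] at hd
      exact zero_ne_one hd
    have hdS : d ∈ S := by
      rw [hS, Finset.mem_filter, MvPolynomial.mem_support_iff]
      exact ⟨hd0, hdk⟩
    refine ⟨β * d 1, ?_⟩
    rw [hDc, Finset.sum_eq_single d]
    · rw [if_pos rfl]
      exact hd
    · intro d' hd' hne
      rw [if_neg]
      intro hk
      apply hne
      have h1 := (Finset.mem_filter.mp hd').2
      have h2 := (Finset.mem_filter.mp hdS).2
      have h3 : d 1 = d' 1 := Nat.eq_of_mul_eq_mul_left hβ hk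
      have h4 : α * d' 0 = α * d 0 := by omega
      exact finsupp_two_ext (Nat.eq_of_mul_eq_mul_left hα h4) h3.symm
    · intro hn
      exact absurd hdS hn
  obtain ⟨o, ho, hord⟩ := exists_order' v hunit hDint
  refine ⟨o, ho, ?_⟩
  intro E _ _ w e he hw x y hy hval hxy
  have hx : 1 < w x := by rw [hval]; exact hy
  have hx0 : x ≠ 0 := by
    rintro rfl; rw [map_zero] at hx; exact absurd zero_lt_one (not_lt.mpr hx.le)
  have hy0 : y ≠ 0 := by
    rintro rfl; rw [map_zero] at hy; exact absurd zero_lt_one (not_lt.mpr hy.le)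
  have hwx : 0 < w x := zero_lt_one.trans hx
  have hwy : 0 < w y := zero_lt_one.trans hy
  have hint : ∀ d, w (algebraMap K E (H.coeff d)) ≤ 1 := fun d => by
    rw [← hw]; exact pow_le_one₀ zero_le (h.integral d)
  have hdeg : ∀ d ∈ H.support, α * d 0 + β * d 1 ≤ k0 := by
    intro d hd
    by_contra hcon
    exact (MvPolynomial.mem_support_iff.mp hd) (h.deg d (by omega))
  rw [aeval_two] at hxy
  simp only [← pow_mul] at hxy
  -- the ratio
  set z := y / x with hz
  have hwz : w z = 1 := by rw [hz, map_div₀, hval, div_self hwy.ne']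
  have hDz : w ((D.map (algebraMap K E)).eval z) < 1 := by
    have e1 : x ^ k0 * (D.map (algebraMap K E)).eval z =
        ∑ d ∈ S, algebraMap K E (H.coeff d) * (x ^ (α * d 0) * y ^ (β * d 1)) := by
      rw [hD, Polynomial.map_sum, eval_finsetSum, Finset.mul_sum]
      refine Finset.sum_congr rfl fun d hd => ?_
      have h1 := (Finset.mem_filter.mp hd).2
      rw [Polynomial.map_mul, map_C, Polynomial.map_pow, map_X, eval_mul, eval_C, eval_pow,
        eval_X, hz, div_pow, ← h1, pow_add]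
      field_simp
    have e2 : ∑ d ∈ S, algebraMap K E (H.coeff d) * (x ^ (α * d 0) * y ^ (β * d 1)) =
        -∑ d ∈ H.support.filter (fun d => ¬ α * d 0 + β * d 1 = k0),
          algebraMap K E (H.coeff d) * (x ^ (α * d 0) * y ^ (β * d 1)) := by
      rw [← Finset.sum_filter_add_sum_filter_not H.support
        (fun d => α * d 0 + β * d 1 = k0)] at hxy
      exact eq_neg_of_add_eq_zero_left hxy
    have h2 : w (x ^ k0 * (D.map (algebraMap K E)).eval z) < w x ^ k0 := by
      rw [e1, e2, Valuation.map_neg]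
      refine Valuation.map_sum_lt w (pow_ne_zero _ hwx.ne') fun d hd => ?_
      obtain ⟨hd1, hd2⟩ := Finset.mem_filter.mp hd
      have h3 : α * d 0 + β * d 1 < k0 := lt_of_le_of_ne (hdeg d hd1) hd2
      rw [map_mul, map_mul, map_pow, map_pow, ← hval, ← pow_add]
      calc w (algebraMap K E (H.coeff d)) * w x ^ (α * d 0 + β * d 1) ≤
            1 * w x ^ (α * d 0 + β * d 1) :=
            mul_le_mul_of_nonneg_right (hint d) zero_le
        _ = w x ^ (α * d 0 + β * d 1) := one_mul _
        _ < w x ^ k0 := pow_lt_pow_right₀ hx h3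
    rw [map_mul, map_pow] at h2
    by_contra hcon
    push Not at hcon
    exact absurd h2 (not_lt.mpr (le_mul_of_one_le_right zero_le hcon))
  have h1 := hord E w e he hw z hwz hDz
  have hz0 : z ≠ 0 := div_ne_zero hy0 hx0
  have e3 : (x / y) ^ o - 1 = -(z ^ o - 1) / z ^ o := by
    have : x / y = z⁻¹ := by rw [hz, inv_div]
    rw [this, inv_pow, eq_div_iff (pow_ne_zero _ hz0), sub_mul, inv_mul_cancel₀ (pow_ne_zero _ hz0)]
    ring
  rw [e3, map_div₀, Valuation.map_neg, map_pow, hwz, one_pow, div_one]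
  exact h1

end Pool.Agent.UHZ
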