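import Pool.Agent.UHZ.Inf
import Pool.Agent.UHZ.Deg
import Pool.Agent.UHU.GMain

/-!
# Bounded heights on curves for `X ^ d + c`, `d` not a prime power
-/

set_option autoImplicit false

universe u

open IsDedekindDomain NumberField Polynomial
open scoped WithZero

namespace Pool.Agent.UHZ

open Pool.Agent.UHG (st st_iter map_st map_iter_st IsNonverticalCurve points hyp aeval_pair genHom
  genHom_eq_zero genHom_of_mem spec_of gen_transcendental gen_integral)
open Pool.Agent.UH2 (aeval_fun)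
open Pool.Agent.UHT (Cl)
open Pool.Agent.UHJ (eval_iter)
open Pool.Agent.Arb.DB (u_ne)
open Pool.Agent.UHU (PR exists_unit_order unit_pow_sub_mul aeval_swap rename_swap_swap
  exists_of_degreeOf_zero siegel main_gen)

/-- **The points outside the closed unit disc.** -/
theorem pair_far {K : Type u} [Field K] [NumberField K] {f : K[X]} {q : ℕ} (hq : 2 ≤ q)
    (hfdeg : f.natDegree = q) {n : ℕ} (I : Ideal (MvPolynomial (Fin n) K))
    (m : ℕ) (hm : 0 < m) (i j : Fin n) (v : HeightOneSpectrum (𝓞 K))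
    (hf : PR (v.valuation K) q f)
    {a b κ₀ : ℕ} (ha : 0 < a) (hb : 0 < b) {H : MvPolynomial (Fin 2) K} (hH : InfAt v a b κ₀ H)
    (hHI : MvPolynomial.aeval ![(MvPolynomial.X i : MvPolynomial (Fin n) K),
      MvPolynomial.X j] H ∈ I) :
    ∃ o : ℕ, 0 < o ∧ ∀ (E : IntermediateField K (AlgebraicClosure K)) [FiniteDimensional K E]
      [NumberField E] (P : Fin n → AlgebraicClosure K), P ∈ points I → ∀ g : K[X],
      1 ≤ g.natDegree → g.natDegree * b = a →
      g.comp (f.comp^[m] X) = (f.comp^[m] X).comp g → ∀ r : ℕ,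
      ∀ (x y : E), (x : AlgebraicClosure K) = (st f)^[r] (P i) →
      (y : AlgebraicClosure K) = st g ((st f)^[r] (P j)) → FarHyp v o x y := by
  classical
  obtain ⟨o, ho, hord⟩ := hH.ratio hb ha
  obtain ⟨o1, ho1, hord1⟩ := exists_unit_order v
  have hqm : 2 ≤ q ^ m := by
    calc 2 ≤ q := hq
      _ = q ^ 1 := (pow_one q).symm
      _ ≤ q ^ m := Nat.pow_le_pow_right (by omega) hm
  refine ⟨o * o1, Nat.mul_pos ho ho1, ?_⟩
  intro E _ _ P hP g hg hgD hc r x y hx hy W e he hw hx1 hy1 hxy1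
  obtain ⟨ξ, hξ⟩ := IsAlgClosed.exists_pow_nat_eq (P i) ha
  obtain ⟨η, hη⟩ := IsAlgClosed.exists_pow_nat_eq (P j) hb
  set E' := IntermediateField.adjoin E (insert ξ (insert η (Set.range P))) with hE'
  have hfd : FiniteDimensional E E' := IntermediateField.finiteDimensional_adjoin
    fun z _ => (Algebra.IsAlgebraic.isAlgebraic z).isIntegral
  have hNF' : NumberField E' := NumberField.of_module_finite E E'
  obtain ⟨W', e', he', _, hw'⟩ := Arb.exists_above W E'
  have hmem : ∀ l, P l ∈ E' := fun l => IntermediateField.subset_adjoin E _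
    (Set.mem_insert_of_mem _ (Set.mem_insert_of_mem _ ⟨l, rfl⟩))
  set P' : Fin n → E' := fun l => ⟨P l, hmem l⟩ with hP'
  set ξ' : E' := ⟨ξ, IntermediateField.subset_adjoin E _ (Set.mem_insert _ _)⟩ with hξ'
  set η' : E' := ⟨η, IntermediateField.subset_adjoin E _
    (Set.mem_insert_of_mem _ (Set.mem_insert _ _))⟩ with hη'
  have hPi : P' i = ξ' ^ a := by
    apply Subtype.coe_injective
    push_cast
    exact hξ.symm
  have hPj : P' j = η' ^ b := by
    apply Subtype.coe_injective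
    push_cast
    exact hη.symm
  set φ : E' →ₐ[K] AlgebraicClosure K := E'.val.restrictScalars K with hφ
  have hφinj : Function.Injective φ := φ.injective
  have hφP : ∀ l, φ (P' l) = P l := fun l => rfl
  have hcomp : (MvPolynomial.aeval P : MvPolynomial (Fin n) K →ₐ[K] AlgebraicClosure K) =
      φ.comp (MvPolynomial.aeval P') := by
    apply MvPolynomial.algHom_ext
    intro l
    rw [AlgHom.comp_apply, MvPolynomial.aeval_X, MvPolynomial.aeval_X, hφP]
  have hPE : ∀ G ∈ I, MvPolynomial.aeval P' G = 0 := by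
    intro G hG
    apply hφinj
    rw [map_zero]
    exact (DFunLike.congr_fun hcomp G).symm.trans (hP G hG)
  have hpow : ∀ a : K, v.valuation K a ^ (e * e') =
      W'.valuation E' (algebraMap K E' a) := by
    intro a
    rw [pow_mul, hw, hw', ← IsScalarTower.algebraMap_apply K E E']
  have hee : 0 < e * e' := by positivity
  have hHP : MvPolynomial.aeval ![ξ' ^ a, η' ^ b] H = 0 := by
    have h1 := hPE _ hHI
    rw [← aeval_pair (MvPolynomial.aeval P'), MvPolynomial.aeval_X, MvPolynomial.aeval_X, hPi,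
      hPj] at h1
    exact h1
  have ex : (st f)^[r] (P' i) = algebraMap E E' x := by
    apply hφinj
    rw [map_iter_st, hφP, ← hx]
    rfl
  have ey : st g ((st f)^[r] (P' j)) = algebraMap E E' y := by
    apply hφinj
    rw [map_st, map_iter_st, hφP, ← hy]
    rfl
  -- the polynomials
  obtain ⟨hGpr, hGd⟩ := hf.iter hfdeg r
  obtain ⟨hFpr, hFd⟩ := hf.iter hfdeg m
  have hgpr : PI (v.valuation K) g.natDegree g := PI.of_comm hqm hFd hFpr hg hc
  set G := f.comp^[r] X with hGdef
  set G2 := G.map (algebraMap K E') with hG2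
  set g2 := g.map (algebraMap K E') with hg2
  have hG2pr : PI (W'.valuation E') (q ^ r) G2 := (pi_of_pr hGpr).base hpow
  have hg2pr : PI (W'.valuation E') g.natDegree g2 := hgpr.base hpow
  have hstf : ∀ z : E', (st f)^[r] z = G2.eval z := by
    intro z
    rw [← st_iter]
    change aeval z G = _
    rw [hG2, eval_map_algebraMap]
  have hstg : ∀ z : E', st g z = g2.eval z := fun z => by rw [hg2, eval_map_algebraMap]
  have h1 : W'.valuation E' (algebraMap E E' x) = W.valuation E x ^ e' := (hw' x).symm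
  have h2 : W'.valuation E' (algebraMap E E' y) = W.valuation E y ^ e' := (hw' y).symm
  rw [hstf, hPi] at ex
  rw [hstg, hstf, hPj] at ey
  have hκK : v.valuation K ((G.coeff (q ^ r) / (g.coeff g.natDegree *
      G.coeff (q ^ r) ^ g.natDegree)) ^ o1 - 1) < 1 := by
    apply hord1
    rw [map_div₀, map_mul, map_pow, hGpr.lead, hgpr.lead, one_pow, one_mul, div_one]
  have hκ : W'.valuation E' ((G2.coeff (q ^ r) / (g2.coeff g.natDegree *
      G2.coeff (q ^ r) ^ g.natDegree)) ^ o1 - 1) < 1 := by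
    rw [hG2, hg2, coeff_map, coeff_map, ← map_pow, ← map_mul, ← map_div₀, ← map_pow,
      ← map_one (algebraMap K E'), ← map_sub, ← hpow]
    exact pow_lt_one₀ zero_le hκK (by omega)
  have h3 := ratio_far (w := W'.valuation E') hG2pr hg2pr (Nat.one_le_pow _ _ (by omega)) hg hb
    hgD (o := o) (o1 := o1) (ξ := ξ') (η := η')
    (fun hY hXY => hord E' (W'.valuation E') (e * e') hee hpow _ _ hY hXY hHP) hκ
    (by rw [ex, h1]; exact one_lt_pow₀ hx1 he'.ne')
    (by rw [ey, h2]; exact one_lt_pow₀ hy1 he'.ne')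
    (by rw [ex, ey, ← map_div₀, ← hw', hxy1, one_pow])
  rw [ex, ey] at h3
  have e3 : (algebraMap E E' x / algebraMap E E' y) ^ (o * o1) - 1 =
      algebraMap E E' ((x / y) ^ (o * o1) - 1) := by
    rw [map_sub, map_pow, map_div₀, map_one]
  rw [e3, ← hw'] at h3
  by_contra hcon
  push Not at hcon
  exact absurd h3 (not_lt.mpr (one_le_pow₀ hcon))

/-- **The engine**, with the degree bound as hypothesis. -/
theorem main_core {K : Type u} [Field K] [NumberField K] (f : K[X]) (hq : 2 ≤ f.natDegree)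
    (m : ℕ) (hm : 0 < m) (n : ℕ)
    (I : Ideal (MvPolynomial (Fin n) K)) (hI : IsNonverticalCurve I)
    (h : ∀ i j : Fin n, i ≠ j → ∃ H : MvPolynomial (Fin 2) K,
      (∀ G : MvPolynomial (Fin 2) K, MvPolynomial.aeval
        ![(MvPolynomial.X i : MvPolynomial (Fin n) K), MvPolynomial.X j] G ∈ I ↔ H ∣ G) ∧
      ∀ g₀ : K[X], g₀.natDegree * H.degreeOf 0 = H.degreeOf 1 →
        g₀.comp (f.comp^[m] X) = (f.comp^[m] X).comp g₀ → 0 < g₀.natDegree →
        MvPolynomial.aeval ![(MvPolynomial.X i : MvPolynomial (Fin n) K),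
          MvPolynomial.X j] H ∈ I →
        ∃ C0 : ℕ, ∀ (E : IntermediateField K (AlgebraicClosure K)) [FiniteDimensional K E]
          (P : Fin n → AlgebraicClosure K), P ∈ points I → ∀ g : K[X],
          1 ≤ g.natDegree → g.natDegree = g₀.natDegree →
          g.comp (f.comp^[m] X) = (f.comp^[m] X).comp g → ∀ r : ℕ, r < m →
          ∀ (x y : E), (x : AlgebraicClosure K) = (st f)^[r] (P i) →
          (y : AlgebraicClosure K) = st g ((st f)^[r] (P j)) → ∀ N : ℕ,
          (st f)^[N + 1] x = (st f)^[N + 1] y → (st f)^[N] x ≠ (st f)^[N] y →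
            f.natDegree ^ N ≤ C0 * Module.finrank K E) :
    ∃ B : ℝ, ∀ k : ℕ, ∀ V ∈ hyp f m n k, ¬ points I ⊆ V → ∀ P ∈ points I ∩ V,
      ∑ i, absLogHeight₁ (P i) ≤ B := by
  classical
  have hprime := hI.prime
  have halg : Algebra.IsAlgebraic ℚ (AlgebraicClosure K) := Algebra.IsAlgebraic.trans ℚ K _
  apply main_gen f hq m hm n I hI
  intro i j hij
  obtain ⟨H, hgen, hg⟩ := h i j hij
  have hHI : MvPolynomial.aeval ![(MvPolynomial.X i : MvPolynomial (Fin n) K),
      MvPolynomial.X j] H ∈ I := (hgen H).mpr dvd_rfl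
  have hH0 : H ≠ 0 := by
    rintro rfl
    obtain ⟨G, hG0, hG⟩ := hI.dim_one i j
    exact hG0 (zero_dvd_iff.mp ((hgen G).mp hG))
  set ξ := genHom I (MvPolynomial.X i) with hξdef
  set η := genHom I (MvPolynomial.X j) with hηdef
  have hgenF : ∀ G : MvPolynomial (Fin 2) K, MvPolynomial.aeval ![ξ, η] G = 0 ↔ H ∣ G := by
    intro G
    rw [← hgen, hξdef, hηdef, aeval_pair (genHom I)]
    exact ⟨fun h => genHom_eq_zero h, fun h => genHom_of_mem h⟩
  have hgenF' : ∀ G : MvPolynomial (Fin 2) K, MvPolynomial.aeval ![η, ξ] G = 0 ↔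
      MvPolynomial.rename (Equiv.swap (0 : Fin 2) 1) H ∣ G := by
    intro G
    rw [aeval_swap ξ η, hgenF]
    constructor
    · rintro ⟨Q, hQ⟩
      refine ⟨MvPolynomial.rename (Equiv.swap (0 : Fin 2) 1) Q, ?_⟩
      rw [← map_mul, ← hQ, rename_swap_swap]
    · rintro ⟨Q, hQ⟩
      refine ⟨MvPolynomial.rename (Equiv.swap (0 : Fin 2) 1) Q, ?_⟩
      rw [hQ, map_mul, rename_swap_swap]
  have hdeg0 : (MvPolynomial.rename (Equiv.swap (0 : Fin 2) 1) H).degreeOf 0 = H.degreeOf 1 := by
    have h1 := MvPolynomial.degreeOf_rename_of_injective (p := H)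
      (Equiv.swap (0 : Fin 2) 1).injective 1
    rwa [Equiv.swap_apply_right] at h1
  have hdeg1 : (MvPolynomial.rename (Equiv.swap (0 : Fin 2) 1) H).degreeOf 1 = H.degreeOf 0 := by
    have h1 := MvPolynomial.degreeOf_rename_of_injective (p := H)
      (Equiv.swap (0 : Fin 2) 1).injective 0
    rwa [Equiv.swap_apply_left] at h1
  -- the degrees are positive
  have hpos : ∀ (G : MvPolynomial (Fin 2) K) (i j : Fin n), G ≠ 0 →
      MvPolynomial.aeval ![(MvPolynomial.X i : MvPolynomial (Fin n) K),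
      MvPolynomial.X j] G ∈ I → 0 < G.degreeOf 1 := by
    intro G i j hG0 hG
    by_contra hcon
    obtain ⟨p, hp⟩ := exists_of_degreeOf_zero (H := G) (by omega)
    have hp0 : p ≠ 0 := by
      rintro rfl
      rw [map_zero] at hp
      exact hG0 hp
    apply hI.nonvertical i p hp0
    have h1 : MvPolynomial.aeval ![(MvPolynomial.X i : MvPolynomial (Fin n) K),
        MvPolynomial.X j] G = aeval (MvPolynomial.X i : MvPolynomial (Fin n) K) p := by
      rw [hp, ← Polynomial.aeval_algHom_apply, MvPolynomial.aeval_X]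
      rfl
    rwa [h1] at hG
  have ha0 : 0 < H.degreeOf 1 := hpos H i j hH0 hHI
  have hb0 : 0 < H.degreeOf 0 := by
    rw [← hdeg1]
    refine hpos _ j i ?_ ?_
    · intro h0
      apply hH0
      rw [← rename_swap_swap H, h0, map_zero]
    · rw [← aeval_swap]
      exact hHI
  set a := H.degreeOf 1 with ha
  set b := H.degreeOf 0 with hb
  refine ⟨a, b, ha0, hb0, ?_, ?_⟩
  · -- heights
    have hs : 0 < a * a + a * b + 1 := by omega
    obtain ⟨B1, hB10, hB1⟩ := siegel (Ω := AlgebraicClosure K) (gen_transcendental hI i)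
      (gen_integral hI i j) hgenF ha.symm hb.symm ha0 hs
    obtain ⟨B2, hB20, hB2⟩ := siegel (Ω := AlgebraicClosure K) (gen_transcendental hI j)
      (gen_integral hI j i) hgenF' hdeg1 hdeg0 hb0 hs
    refine ⟨B1 + B2, by positivity, fun P hP => ?_⟩
    have h1 := hB1 _ _ (spec_of hP (MvPolynomial.X i) (MvPolynomial.X j))
    have h2 := hB2 _ _ (spec_of hP (MvPolynomial.X j) (MvPolynomial.X i))
    rw [MvPolynomial.aeval_X, MvPolynomial.aeval_X] at h1 h2
    push_cast at h1 h2
    exact ⟨by linarith, by linarith⟩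
  · -- degrees
    by_cases hex : ∃ g : K[X], g.natDegree * b = a ∧
        g.comp (f.comp^[m] X) = (f.comp^[m] X).comp g
    · obtain ⟨g0, hg0, hg0c⟩ := hex
      have hD0 : 0 < g0.natDegree := by
        rcases Nat.eq_zero_or_pos g0.natDegree with h0 | h0
        · rw [h0, zero_mul] at hg0
          omega
        · exact h0
      obtain ⟨C0, hC0⟩ := hg g0 hg0 hg0c hD0 hHI
      refine ⟨C0, ?_⟩
      intro E _ P hP g hg1 hgD hc r hr x y hx hy N heq hne
      have hgg : g.natDegree = g0.natDegree :=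
        Nat.eq_of_mul_eq_mul_right hb0 (hgD.trans hg0.symm)
      exact hC0 E P hP g hg1 hgg hc r hr x y hx hy N heq hne
    · exact ⟨0, fun E _ P hP g hg1 hgD hc => absurd ⟨g, hgD, hc⟩ hex⟩


/-- **Uniform height bound for `X ^ d + c`, `d` not a prime power, all curves with good reduction at
infinity.** -/
theorem main_comp {K : Type u} [Field K] [NumberField K] {d : ℕ} (hd : 2 ≤ d)
    (hdp : ¬ IsPrimePow d) {c : K} (hc : c ≠ 0)
    (m : ℕ) (hm : 0 < m) (n : ℕ)
    (I : Ideal (MvPolynomial (Fin n) K)) (hI : IsNonverticalCurve I)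
    (h : ∀ i j : Fin n, i ≠ j → ∃ H : MvPolynomial (Fin 2) K,
      (∀ G : MvPolynomial (Fin 2) K, MvPolynomial.aeval
        ![(MvPolynomial.X i : MvPolynomial (Fin n) K), MvPolynomial.X j] G ∈ I ↔ H ∣ G) ∧
      ∀ g : K[X], g.natDegree * H.degreeOf 0 = H.degreeOf 1 →
        g.comp ((X ^ d + C c).comp^[m] X) = ((X ^ d + C c).comp^[m] X).comp g →
        ∀ p : ℕ, p.Prime → p ∣ d → ∃ v : HeightOneSpectrum (𝓞 K),
          v.valuation K (p : K) < 1 ∧ v.valuation K c < 1 ∧ TopMax v g.natDegree 1 H) :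
    ∃ B : ℝ, ∀ k : ℕ, ∀ V ∈ hyp (X ^ d + C c) m n k, ¬ points I ⊆ V → ∀ P ∈ points I ∩ V,
      ∑ i, absLogHeight₁ (P i) ≤ B := by
  classical
  have hfd : (X ^ d + C c : K[X]).natDegree = d := natDegree_X_pow_add_C
  have hd0 : d ≠ 0 := by omega
  have hnp : ∀ p, p.Prime → p ∣ d → ∃ ℓ, ℓ.Prime ∧ ℓ ∣ d ∧ p ≠ ℓ := by
    intro p hp hpd
    by_contra hcon
    push Not at hcon
    apply hdp
    have h1 : d = p ^ d.primeFactorsList.length :=
      Nat.eq_prime_pow_of_unique_prime_dvd hd0 fun {ℓ} hℓ hℓd => (hcon ℓ hℓ hℓd).symm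
    rw [isPrimePow_nat_iff]
    refine ⟨p, d.primeFactorsList.length, hp, ?_, h1.symm⟩
    rcases Nat.eq_zero_or_pos d.primeFactorsList.length with h0 | h0
    · rw [h0, pow_zero] at h1
      omega
    · exact h0
  refine main_core (X ^ d + C c) (by rw [hfd]; exact hd) m hm n I hI fun i j hij => ?_
  obtain ⟨H, hgen, hg⟩ := h i j hij
  refine ⟨H, hgen, fun g₀ hg₀ hg₀c hD0 hHI => ?_⟩
  have hv := hg g₀ hg₀ hg₀c
  have hne : Nonempty (HeightOneSpectrum (𝓞 K)) := by
    obtain ⟨p, hp, hpd⟩ := Nat.exists_prime_and_dvd (n := d) (by omega)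
    obtain ⟨v, -⟩ := hv p hp hpd
    exact ⟨v⟩
  choose! v hvp hvc htop using hv
  have key : ∀ p, p.Prime → p ∣ d → ∃ o : ℕ, 0 < o ∧
      ∀ (E : IntermediateField K (AlgebraicClosure K)) [FiniteDimensional K E]
      [NumberField E] (P : Fin n → AlgebraicClosure K), P ∈ points I → ∀ g : K[X],
      1 ≤ g.natDegree → g.natDegree * 1 = g₀.natDegree →
      g.comp ((X ^ d + C c).comp^[m] X) = ((X ^ d + C c).comp^[m] X).comp g → ∀ r : ℕ,
      ∀ (x y : E), (x : AlgebraicClosure K) = (st (X ^ d + C c : K[X]))^[r] (P i) →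
      (y : AlgebraicClosure K) = st g ((st (X ^ d + C c : K[X]))^[r] (P j)) →
      FarHyp (v p) o x y := fun p hp hpd => by
    obtain ⟨t, κ, hinf⟩ := (htop p hp hpd).infAt
    refine pair_far hd hfd I m hm i j (v p) (pr_unicrit (by omega) (hvc p hp hpd)) hD0 one_pos
      hinf ?_
    rw [map_mul]
    exact I.mul_mem_left _ hHI
  choose! o ho hfar using key
  set O := ∏ p ∈ d.primeFactors, o p with hO
  have hO0 : 0 < O := Finset.prod_pos fun p hp =>
    ho p (Nat.prime_of_mem_primeFactors hp) (Nat.dvd_of_mem_primeFactors hp)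
  obtain ⟨C0, -, hC0⟩ := degree_bound.{u, u} hd hc hnp v (fun p hp hpd => ⟨hvp p hp hpd,
    hvc p hp hpd⟩) hO0
  refine ⟨C0, ?_⟩
  intro E _ P hP g hg1 hgg hgc r hr x y hx hy N heq hne'
  have hNF : NumberField E := NumberField.of_module_finite K E
  have hst : st (A := E) (X ^ d + C c : K[X]) = fun z : E => z ^ d + algebraMap K E c := by
    funext z
    change aeval z (X ^ d + C c : K[X]) = _
    simp
  rw [hst] at heq hne'
  rw [hfd]
  refine hC0 E x y ?_ N heq hne'
  intro p hp hpd W e he hw hx1 hy1 hxy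
  have h1 := hfar p hp hpd E P hP g hg1 (by rw [mul_one, hgg]) hgc r x y hx hy W e he hw hx1 hy1 hxy
  obtain ⟨s, hs⟩ := Finset.dvd_prod_of_mem o (Nat.mem_primeFactors.mpr ⟨hp, hpd, hd0⟩)
  rw [← hO] at hs
  rw [hs]
  exact unit_pow_sub_mul hxy h1 s

end Pool.Agent.UHZ
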