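import Pool.Agent.UHZ.Wild
import Pool.Agent.UHU.Inner
import Mathlib.NumberTheory.RamificationInertia.Valuation

/-!
# Places: the residue field, wild ramification, sums over the places above
-/

set_option autoImplicit false

open IsDedekindDomain NumberField Polynomial
open scoped WithZero

namespace Pool.Agent.UHZ

open Pool.Agent.Arb.DB (od u_ne od_mul od_pos od_nonneg od_lt od_le od_eq od_pow)
open Pool.Agent.UHU (PR unit_pow_sub_gcd unit_pow_sub_mul)
open Pool.Agent.UH2 (aeval_fun inner_collision exists_clear le_exp_neg_one IntP eval_le)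

/-- The number of units of the residue field. -/
theorem unit_order {E : Type*} [Field E] [NumberField E] (W : HeightOneSpectrum (𝓞 E)) :
    W.valuation E ((Nat.card (𝓞 E ⧸ W.asIdeal) - 1 : ℕ) : E) = 1 ∧
      ∀ a : E, W.valuation E a = 1 →
        W.valuation E (a ^ (Nat.card (𝓞 E ⧸ W.asIdeal) - 1) - 1) < 1 := by
  have hvmax : W.asIdeal.IsMaximal := W.isMaximal
  let _ : Field (𝓞 E ⧸ W.asIdeal) := Ideal.Quotient.field W.asIdeal
  have hfin : Finite (𝓞 E ⧸ W.asIdeal) := Ideal.finiteQuotientOfFreeOfNeBot _ W.ne_bot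
  let _ : Fintype (𝓞 E ⧸ W.asIdeal) := Fintype.ofFinite _
  have hcard := Fintype.one_lt_card (α := 𝓞 E ⧸ W.asIdeal)
  rw [Nat.card_eq_fintype_card]
  constructor
  · have h1 : ((Fintype.card (𝓞 E ⧸ W.asIdeal) : ℕ) : 𝓞 E ⧸ W.asIdeal) = 0 :=
      Nat.cast_card_eq_zero _
    have h2 : ((Fintype.card (𝓞 E ⧸ W.asIdeal) : ℕ) : 𝓞 E) ∈ W.asIdeal := by
      rw [← Ideal.Quotient.eq_zero_iff_mem, map_natCast]
      exact h1
    have h3 : W.valuation E ((Fintype.card (𝓞 E ⧸ W.asIdeal) : ℕ) : E) < 1 := by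
      have h4 := (W.valuation_lt_one_iff_mem (K := E) _).mpr h2
      have h5 : algebraMap (𝓞 E) E ((Fintype.card (𝓞 E ⧸ W.asIdeal) : ℕ) : 𝓞 E) =
        ((Fintype.card (𝓞 E ⧸ W.asIdeal) : ℕ) : E) := map_natCast (algebraMap (𝓞 E) E) _
      rw [← h5]
      exact h4
    rw [Nat.cast_sub hcard.le, Nat.cast_one, sub_eq_neg_add,
      Valuation.map_add_eq_of_lt_left, Valuation.map_neg, map_one]
    rw [Valuation.map_neg, map_one]
    exact h3
  · intro a ha
    obtain ⟨b, hb⟩ := W.exists_valuation_sub_lt_of_integer (x := a) ha.le 1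
    have hb1 : W.valuation E (algebraMap (𝓞 E) E b - a) < 1 := by simpa using hb
    have hcl' : Pool.Agent.UHT.Cl (W.valuation E) (algebraMap (𝓞 E) E b) a := by
      unfold Pool.Agent.UHT.Cl
      rw [ha]
      exact hb1
    have hbv : W.valuation E (algebraMap (𝓞 E) E b) = 1 := hcl'.val.trans ha
    have hb0 : Ideal.Quotient.mk W.asIdeal b ≠ 0 := by
      intro h0
      rw [Ideal.Quotient.eq_zero_iff_mem, ← W.valuation_lt_one_iff_mem (K := E), hbv] at h0
      exact lt_irrefl _ h0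
    have h1 := FiniteField.pow_card_sub_one_eq_one (Ideal.Quotient.mk W.asIdeal b) hb0
    set o := Fintype.card (𝓞 E ⧸ W.asIdeal) - 1 with ho
    have h2 : W.valuation E (algebraMap (𝓞 E) E b ^ o - 1) < 1 := by
      have e1 : algebraMap (𝓞 E) E b ^ o - 1 = algebraMap (𝓞 E) E (b ^ o - 1) := by
        rw [map_sub, map_pow, map_one]
      rw [e1, W.valuation_lt_one_iff_mem, ← Ideal.Quotient.eq_zero_iff_mem, map_sub, map_pow, h1,
        map_one, sub_self]
    have h3 := hcl'.symm.pow o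
    unfold Pool.Agent.UHT.Cl at h3
    rw [map_pow, hbv, one_pow] at h3
    have e2 : a ^ o - 1 = (a ^ o - algebraMap (𝓞 E) E b ^ o) +
        (algebraMap (𝓞 E) E b ^ o - 1) := by ring
    rw [e2]
    exact Valuation.map_add_lt _ h3 h2

section val
variable {F : Type*} [Field F] {w : Valuation F ℤᵐ⁰}

/-- integers prime to `p` are units at the places over `p` -/
theorem unit_of_not_dvd {p : ℕ} (hp : p.Prime) (hwp : w (p : F) < 1) {n : ℕ} (hn : ¬ p ∣ n) :
    w (n : F) = 1 := by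
  have hcop : IsCoprime (p : ℤ) (n : ℤ) :=
    (Nat.isCoprime_iff_coprime).mpr ((Nat.Prime.coprime_iff_not_dvd hp).mpr hn)
  obtain ⟨s, t, hst⟩ := hcop
  refine le_antisymm (nat_le n) ?_
  by_contra hcon
  push Not at hcon
  have h1 : ((s : ℤ) : F) * p + ((t : ℤ) : F) * n = 1 := by
    have h3 := congrArg (Int.cast : ℤ → F) hst
    push_cast at h3
    exact h3
  have h2 : w (((s : ℤ) : F) * p + ((t : ℤ) : F) * n) < 1 := by
    refine Valuation.map_add_lt w ?_ ?_
    · rw [map_mul]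
      exact (mul_le_of_le_one_left zero_le (intCast_mem w.integer s)).trans_lt hwp
    · rw [map_mul]
      exact (mul_le_of_le_one_left zero_le (intCast_mem w.integer t)).trans_lt hcon
  rw [h1, map_one] at h2
  exact lt_irrefl _ h2

/-- a root of unity of order a unit is determined by its residue -/
theorem root_eq_one {z : F} {n : ℕ} (hn : w (n : F) = 1) (h : z ^ n = 1) (hz : w (z - 1) < 1) :
    z = 1 := by
  have h1 := pow_sub_one_val hz hn
  rw [h, sub_self, map_zero] at h1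
  exact sub_eq_zero.mp ((Valuation.zero_iff w).mp h1.symm)

/-- **The order of a residue.** -/
theorem order_dvd {ρ ω' : F} (hρ : w ρ = 1) {ℓ : ℕ} (hℓ : ℓ.Prime) (hwℓ : w (ℓ : F) = 1)
    (h1 : ω' ^ ℓ = 1) (h2 : ω' ≠ 1) {M s n : ℕ} (hM : M ≠ 0) (hs : ℓ ^ s ∣ M)
    (h3 : w (ρ ^ M - ω') < 1) (hn : w (ρ ^ n - 1) < 1) : ℓ ^ (s + 1) ∣ n := by
  have hω'1 : w ω' = 1 := by
    have h4 := congrArg w h1
    rw [map_pow, map_one] at h4
    exact (pow_eq_one_iff_of_nonneg zero_le hℓ.ne_zero).mp h4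
  have hne : w (ρ ^ M - 1) = 1 := by
    have h5 : w (ω' - 1) = 1 := by
      have hle : w (ω' - 1) ≤ 1 := Valuation.map_sub_le w hω'1.le (by rw [map_one])
      rcases hle.lt_or_eq with h | h
      · exact absurd (root_eq_one hwℓ h1 h) h2
      · exact h
    have e : ρ ^ M - 1 = (ω' - 1) + (ρ ^ M - ω') := by ring
    rw [e, Valuation.map_add_eq_of_lt_left w (by rw [h5]; exact h3), h5]
  have hMl : w (ρ ^ (M * ℓ) - 1) < 1 := by
    have e : ρ ^ (M * ℓ) - 1 = (ρ ^ M) ^ ℓ - ω' ^ ℓ := by rw [h1, pow_mul]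
    rw [e]
    have e2 : (ρ ^ M) ^ ℓ - ω' ^ ℓ =
        (∑ i ∈ Finset.range ℓ, (ρ ^ M) ^ i * ω' ^ (ℓ - 1 - i)) * (ρ ^ M - ω') :=
      ((Commute.all _ _).geom_sum₂_mul ℓ).symm
    rw [e2, map_mul]
    refine (mul_le_of_le_one_left zero_le ?_).trans_lt h3
    refine Valuation.map_sum_le w fun i _ => ?_
    rw [map_mul, map_pow, map_pow, map_pow, hρ, hω'1, one_pow, one_pow, one_pow, one_mul]
  have hg := unit_pow_sub_gcd hρ n (M * ℓ) hn hMl
  by_contra hcon
  -- the gcd divides `M`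
  obtain ⟨M', hM'⟩ : ∃ M' s', M = ℓ ^ s' * M' ∧ ¬ ℓ ∣ M' := by
    obtain ⟨s', M', h4, h5⟩ := Nat.exists_eq_pow_mul_and_not_dvd hM ℓ hℓ.ne_one
    exact ⟨M', s', h5, h4⟩
  obtain ⟨s', hMM, hM'ℓ⟩ := hM'
  have hss : s ≤ s' := by
    rw [hMM] at hs
    have h6 : (ℓ ^ s).Coprime M' :=
      Nat.Coprime.pow_left s ((Nat.Prime.coprime_iff_not_dvd hℓ).mpr hM'ℓ)
    exact (Nat.pow_dvd_pow_iff_le_right hℓ.one_lt).mp (h6.dvd_of_dvd_mul_right hs)
  have hdvd : Nat.gcd n (M * ℓ) ∣ M := by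
    set g := Nat.gcd n (M * ℓ) with hgdef
    have h7 : g ∣ ℓ ^ (s' + 1) * M' := by
      have := Nat.gcd_dvd_right n (M * ℓ)
      rw [← hgdef, hMM] at this
      rw [pow_succ, mul_assoc, mul_comm ℓ M', ← mul_assoc]
      exact this
    obtain ⟨g1, g2, hg1, hg2, hgg⟩ := (Nat.dvd_mul).mp h7
    obtain ⟨t, ht, rfl⟩ := (Nat.dvd_prime_pow hℓ).mp hg1
    have ht' : t ≤ s' := by
      by_contra hcon2
      push Not at hcon2
      apply hcon
      have h8 : ℓ ^ (s + 1) ∣ ℓ ^ t := pow_dvd_pow ℓ (by omega)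
      exact (h8.trans (Dvd.intro _ hgg)).trans (Nat.gcd_dvd_left n (M * ℓ))
    rw [← hgg, hMM]
    exact mul_dvd_mul (pow_dvd_pow ℓ ht') hg2
  obtain ⟨j, hj⟩ := hdvd
  have h9 := unit_pow_sub_mul hρ hg j
  rw [← hj, hne] at h9
  exact lt_irrefl _ h9

end val

section
variable {K : Type*} [Field K] [NumberField K]

/-- **Wild ramification.** -/
theorem wild_dvd {p : ℕ} (hp : p.Prime) {a b : ℕ} (ha : 0 < a) (hpb : ¬ p ∣ b)
    (v : HeightOneSpectrum (𝓞 K)) (hv : v.valuation K (p : K) < 1) {c : K} (hc0 : c ≠ 0)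
    (hc : v.valuation K c < 1) : ∃ C : ℕ, 0 < C ∧ ∀ (E : Type*) [Field E] [NumberField E]
      [Algebra K E] (W : HeightOneSpectrum (𝓞 E)) (e : ℕ), 0 < e →
      (∀ z : K, v.valuation K z ^ e = W.valuation E (algebraMap K E z)) →
      ∀ (x y ω : E) (N o : ℕ), W.valuation E x = 1 → W.valuation E y = 1 →
      (fun z => z ^ (p ^ a * b) + algebraMap K E c)^[N] x =
        ω * (fun z => z ^ (p ^ a * b) + algebraMap K E c)^[N] y →
      ω ^ o = 1 → ¬ p ∣ o → ω ≠ 1 → p ^ (N * a) ∣ C * e := by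
  have hp0K : (p : K) ≠ 0 := by exact_mod_cast hp.ne_zero
  have hε : 0 < od (v.valuation K) (p : K) := (od_pos _ hp0K).mp hv
  have hγ : 0 < od (v.valuation K) c := (od_pos _ hc0).mp hc
  obtain ⟨ε, hεe⟩ := Int.eq_ofNat_of_zero_le hε.le
  obtain ⟨γ, hγe⟩ := Int.eq_ofNat_of_zero_le hγ.le
  obtain ⟨C, hC0, hC⟩ := Chain.dvd hp.two_le (ε := ε) (γ := γ) (by omega) (by omega)
  refine ⟨C, hC0, ?_⟩
  intro E _ _ _ W e he hw x y ω N o hx hy hcol hωo hpo hω1
  set w := W.valuation E with hwdef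
  set cE := algebraMap K E c with hcE
  have hcE0 : cE ≠ 0 := by rw [hcE, ne_eq, map_eq_zero]; exact hc0
  have hcE1 : w cE < 1 := by rw [hcE, ← hw]; exact pow_lt_one₀ zero_le hc (by omega)
  have hp0 : (p : E) ≠ 0 := by exact_mod_cast hp.ne_zero
  have hwp : w (p : E) < 1 := by
    have := hw (p : K)
    rw [map_natCast (algebraMap K E)] at this
    rw [← this]
    exact pow_lt_one₀ zero_le hv (by omega)
  have hodp : od w (p : E) = e * ε := by
    have h1 := od_pow (v.valuation K) e w (y := (p : E)) (x := (p : K)) (by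
      have := hw (p : K)
      rw [map_natCast (algebraMap K E)] at this
      exact this.symm)
    rw [h1, hεe]
  have hodc : od w cE = e * γ := by
    have h1 := od_pow (v.valuation K) e w (hw c).symm
    rw [h1, hγe]
  obtain ⟨hA, hA1⟩ := unit_order W
  set A := Nat.card (𝓞 E ⧸ W.asIdeal) - 1 with hAdef
  set P : E → E := fun z => z ^ (p ^ a * b) + cE with hP
  have hval : ∀ (z : E), w z = 1 → ∀ n, w (P^[n] z) = 1 := by
    intro z hz n
    induction n with
    | zero => exact hz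
    | succ n ih =>
      rw [Function.iterate_succ_apply']
      change w ((P^[n] z) ^ (p ^ a * b) + cE) = 1
      rw [Valuation.map_add_eq_of_lt_left w] <;> rw [map_pow, ih, one_pow]
      exact hcE1
  have hYN := hval y hy N
  have hYN0 : P^[N] y ≠ 0 := by
    intro h0
    rw [h0, map_zero] at hYN
    exact zero_ne_one hYN
  have ho : w (o : E) = 1 := unit_of_not_dvd hp hwp hpo
  have hw1 : w ω = 1 := by
    have h1 := hval x hx N
    rw [hcol, map_mul, hYN, mul_one] at h1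
    exact h1
  have hω : w (ω - 1) = 1 := by
    have hle : w (ω - 1) ≤ 1 := Valuation.map_sub_le w hw1.le (by rw [map_one])
    rcases hle.lt_or_eq with h | h
    · exact absurd (root_eq_one ho hωo h) hω1
    · exact h
  have hdiff : w (P^[N] x - P^[N] y) = 1 := by
    have e1 : P^[N] x - P^[N] y = (ω - 1) * P^[N] y := by rw [hcol]; ring
    rw [e1, map_mul, hω, hYN, mul_one]
  have hone : (P^[N] x / P^[N] y) ^ A = 1 := by
    rw [hcol, mul_div_cancel_right₀ _ hYN0]
    refine root_eq_one ho ?_ (hA1 ω hw1)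
    rw [← pow_mul, mul_comm, pow_mul, hωo, one_pow]
  have hb : w (b : E) = 1 := unit_of_not_dvd hp hwp hpb
  rcases orbit_chain hp hp0 hwp ha hb hcE0 hcE1 hA hA1 N x y hx hy hdiff hone with h0 | ⟨_, h2, _⟩
  · rw [h0, zero_mul, pow_zero]
    exact one_dvd _
  · rw [hodp, hodc] at h2
    exact hC e he _ _ h2

/-- **Divisibility from all the places above.** -/
theorem dvd_of_all (v : HeightOneSpectrum (𝓞 K)) {E : Type*} [Field E] [NumberField E]
    [Algebra K E] {m C : ℕ} (h : ∀ (W : HeightOneSpectrum (𝓞 E)) (e r : ℕ), 0 < e → 0 < r →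
      (∀ z : K, v.valuation K z ^ e = W.valuation E (algebraMap K E z)) →
      Nat.card (𝓞 E ⧸ W.asIdeal) = Nat.card (𝓞 K ⧸ v.asIdeal) ^ r →
      e * r ≤ Module.finrank K E → m ∣ C * (e * r)) :
    m ∣ C * Module.finrank K E := by
  classical
  have hvmax : v.asIdeal.IsMaximal := v.isMaximal
  have h1 : ∀ (r : 𝓞 K) (m : 𝓞 E), r • m = 0 → r = 0 ∨ m = 0 := by
    intro r m h
    rw [Algebra.smul_def, mul_eq_zero] at h
    rcases h with h | h
    · left
      exact (FaithfulSMul.algebraMap_injective (𝓞 K) (𝓞 E)) (by rw [h, map_zero])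
    · right
      exact h
  have h2 : NoZeroSMulDivisors (𝓞 K) (𝓞 E) := ⟨fun {r m} h => h1 r m h⟩
  have hsum := Ideal.sum_ramification_inertia (𝓞 E) K E (p := v.asIdeal) v.ne_bot
  have hle : ∀ P ∈ IsDedekindDomain.primesOverFinset v.asIdeal (𝓞 E),
      v.asIdeal.ramificationIdx' P * v.asIdeal.inertiaDeg' P ≤ Module.finrank K E :=
    fun P hP => (Finset.single_le_sum
    (f := fun P => v.asIdeal.ramificationIdx' P * v.asIdeal.inertiaDeg' P)
    (fun _ _ => Nat.zero_le _) hP).trans hsum.le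
  rw [← hsum, Finset.mul_sum]
  refine Finset.dvd_sum fun P hP => ?_
  have hle' := hle P hP
  rw [IsDedekindDomain.mem_primesOverFinset_iff v.ne_bot] at hP
  have hPover : P.LiesOver v.asIdeal := hP.2
  have hPprime : P.IsPrime := hP.1
  have hPbot : P ≠ ⊥ := by
    rintro rfl
    have h1 := hPover.over
    have h2 : (⊥ : Ideal (𝓞 E)).under (𝓞 K) = ⊥ := by
      rw [Ideal.under_bot]
    rw [h2] at h1
    exact v.ne_bot h1
  let W : HeightOneSpectrum (𝓞 E) := ⟨P, hPprime, hPbot⟩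
  have hW : W.asIdeal.LiesOver v.asIdeal := hPover
  have hWm : W.asIdeal.IsMaximal := W.isMaximal
  have h3 := h W (v.asIdeal.ramificationIdx' W.asIdeal) (W.asIdeal.inertiaDeg (𝓞 K))
    (Nat.pos_of_ne_zero
      (Ideal.IsDedekindDomain.ramificationIdx'_ne_zero_of_liesOver W.asIdeal v.ne_bot))
    (Ideal.inertiaDeg_pos W.asIdeal (𝓞 K))
    (fun z => HeightOneSpectrum.valuation_liesOver E v W z)
    (Ideal.cardQuot_pow_inertiaDeg v.asIdeal W.asIdeal).symm
  have h4 : v.asIdeal.inertiaDeg' W.asIdeal = W.asIdeal.inertiaDeg (𝓞 K) :=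
    Ideal.inertiaDeg'_eq_inertiaDeg v.asIdeal W.asIdeal
  have h5 : v.asIdeal.inertiaDeg' P = W.asIdeal.inertiaDeg (𝓞 K) := h4
  rw [h5] at hle' ⊢
  exact h3 hle'

end

end Pool.Agent.UHZ
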