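import Pool.Agent.UHZ.Chain
import Pool.Agent.Arb.DegB

/-!
# Wild ramification forced by the perturbation

`E` is a field with a discrete valuation `w`, `x`, `y` are units, `f(z) = z ^ d + c`, `w c < 1`.
-/

set_option autoImplicit false

open scoped WithZero

namespace Pool.Agent.UHZ

open Pool.Agent.Arb.DB (od u_ne od_mul od_pos od_nonneg od_lt od_le od_eq od_add_eq od_add_ge
  od_pow)

variable {E : Type*} [Field E] {w : Valuation E ℤᵐ⁰}

theorem nat_le (n : ℕ) : w (n : E) ≤ 1 := natCast_mem w.integer n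

/-- powers of an element close to one -/
theorem pow_sub_one_lt {z : E} (hz : w (z - 1) < 1) (n : ℕ) : w (z ^ n - 1) < 1 := by
  have hz1 : w z ≤ 1 := by
    have e : z = (z - 1) + 1 := by ring
    rw [e]
    exact Valuation.map_add_le w hz.le (by rw [map_one])
  induction n with
  | zero => rw [pow_zero, sub_self, map_zero]; exact zero_lt_one
  | succ n ih =>
    have e : z ^ (n + 1) - 1 = z * (z ^ n - 1) + (z - 1) := by rw [pow_succ]; ring
    rw [e]
    refine Valuation.map_add_lt w ?_ hz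
    rw [map_mul]
    exact (mul_le_of_le_one_left zero_le hz1).trans_lt ih

/-- a power whose exponent is a unit -/
theorem pow_sub_one_val {z : E} (hz : w (z - 1) < 1) {n : ℕ} (hn : w (n : E) = 1) :
    w (z ^ n - 1) = w (z - 1) := by
  have h1 : (∑ i ∈ Finset.range n, z ^ i) * (z - 1) = z ^ n - 1 := geom_sum_mul z n
  have h2 : w (∑ i ∈ Finset.range n, z ^ i) = 1 := by
    have e : ∑ i ∈ Finset.range n, z ^ i = (n : E) + ∑ i ∈ Finset.range n, (z ^ i - 1) := by
      rw [Finset.sum_sub_distrib]; simp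
    rw [e, Valuation.map_add_eq_of_lt_left w, hn]
    rw [hn]
    exact Valuation.map_sum_lt w one_ne_zero fun i _ => pow_sub_one_lt hz i
  rw [← h1, map_mul, h2, one_mul]

/-- **The step.** -/
theorem pstep {p : ℕ} (hp : p.Prime) (hp0 : (p : E) ≠ 0) (hwp : w (p : E) < 1) {T : E}
    (hT0 : T ≠ 0) (hT : w T < 1) (hne : (1 + T) ^ p - 1 ≠ 0) :
    Step p (od w (p : E)) (od w T) (od w ((1 + T) ^ p - 1)) := by
  have hp2 := hp.two_le
  set B : E := ∑ k ∈ Finset.Ioo 0 p, (1 : E) ^ (k - 1) * T ^ (p - k - 1) * ↑(p.choose k / p)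
    with hB
  have hexp : (1 + T) ^ p - 1 = T ^ p + (p : E) * T * B := by
    rw [add_pow_prime_eq hp, ← hB]
    ring
  have hB1 : w B = 1 := by
    have hmem : p - 1 ∈ Finset.Ioo 0 p := Finset.mem_Ioo.mpr ⟨by omega, by omega⟩
    have e : B = 1 + ∑ k ∈ (Finset.Ioo 0 p).erase (p - 1),
        (1 : E) ^ (k - 1) * T ^ (p - k - 1) * ↑(p.choose k / p) := by
      rw [hB, ← Finset.add_sum_erase _ _ hmem]
      congr 1
      have h1 : p - (p - 1) - 1 = 0 := by omega
      have h2 : p.choose (p - 1) = p := by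
        have := Nat.choose_symm (n := p) (k := 1) (by omega)
        rw [this, Nat.choose_one_right]
      rw [h1, h2, Nat.div_self (by omega)]
      simp
    rw [e]
    rw [Valuation.map_add_eq_of_lt_left w, map_one]
    rw [map_one]
    refine Valuation.map_sum_lt w one_ne_zero fun k hk => ?_
    obtain ⟨hk1, hk2⟩ := Finset.mem_erase.mp hk
    obtain ⟨hk3, hk4⟩ := Finset.mem_Ioo.mp hk2
    rw [one_pow, one_mul, map_mul, map_pow]
    have h3 : p - k - 1 ≠ 0 := by omega
    exact (mul_le_of_le_one_right zero_le (nat_le _)).trans_lt (pow_lt_one₀ zero_le hT h3)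
  have hB0 : B ≠ 0 := by
    intro h0
    rw [h0, map_zero] at hB1
    exact zero_ne_one hB1
  set t := od w T with ht
  set π := od w (p : E) with hπ
  have hTp0 : T ^ p ≠ 0 := pow_ne_zero _ hT0
  have hodTp : od w (T ^ p) = p * t := by
    have := od_pow w p w (y := T ^ p) (x := T) (map_pow w T p)
    exact this
  have hodB : od w B = 0 := by
    unfold od
    rw [hB1]; simp
  have hM0 : (p : E) * T * B ≠ 0 := mul_ne_zero (mul_ne_zero hp0 hT0) hB0
  have hodM : od w ((p : E) * T * B) = π + t := by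
    rw [od_mul w (mul_ne_zero hp0 hT0) hB0, od_mul w hp0 hT0, hodB, add_zero]
  rw [hexp] at hne ⊢
  rcases lt_trichotomy ((p - 1 : ℤ) * t) π with h | h | h
  · left
    refine ⟨h, ?_⟩
    have h1 : od w (T ^ p) < od w ((p : E) * T * B) := by
      rw [hodTp, hodM]
      linarith
    rw [(od_add_eq w hTp0 (Or.inr h1)).2, hodTp]
  · right; right
    refine ⟨h, ?_⟩
    refine od_add_ge w hne (Or.inr hodTp.ge) (Or.inr ?_)
    rw [hodM]
    linarith
  · right; left
    refine ⟨h, ?_⟩
    have h1 : od w ((p : E) * T * B) < od w (T ^ p) := by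
      rw [hodTp, hodM]
      linarith
    rw [add_comm (T ^ p), (od_add_eq w hM0 (Or.inr h1)).2, hodM]
    ring

/-- **A block of steps.** -/
theorem block {p : ℕ} (hp : p.Prime) (hp0 : (p : E) ≠ 0) (hwp : w (p : E) < 1) {b : ℕ}
    (hb : w (b : E) = 1) {z : E} (hz : w (z - 1) < 1) (a : ℕ) {r0 : ℤ} (k : ℕ)
    (hne : z ^ (p ^ a * b) - 1 ≠ 0)
    (hch : Chain p (od w (p : E)) r0 k (od w (z ^ (p ^ a * b) - 1))) :
    z - 1 ≠ 0 ∧ Chain p (od w (p : E)) r0 (k + a) (od w (z - 1)) ∧
      (0 < a → od w (z - 1) < od w (z ^ (p ^ a * b) - 1)) := by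
  have hπ : 0 < od w (p : E) := (od_pos w hp0).mp hwp
  have hz0 : z - 1 ≠ 0 := by
    intro h0
    apply hne
    rw [sub_eq_zero.mp h0, one_pow, sub_self]
  refine ⟨hz0, ?_⟩
  induction a generalizing k with
  | zero =>
    rw [pow_zero, one_mul, od_eq w (pow_sub_one_val hz hb)] at hch
    exact ⟨hch, fun h => absurd h (lt_irrefl _)⟩
  | succ a ih =>
    set S := z ^ (p ^ a * b) - 1 with hS
    have hexp : z ^ (p ^ (a + 1) * b) - 1 = (1 + S) ^ p - 1 := by
      rw [hS, add_sub_cancel, ← pow_mul]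
      congr 2
      rw [pow_succ]; ring
    rw [hexp] at hne hch ⊢
    have hS0 : S ≠ 0 := by
      intro h0
      apply hne
      rw [h0, add_zero, one_pow, sub_self]
    have hS1 : w S < 1 := pow_sub_one_lt hz _
    have hst := pstep hp hp0 hwp hS0 hS1 hne
    have hSpos : 0 < od w S := (od_pos w hS0).mp hS1
    have hch2 := Chain.succ hch hSpos hst
    obtain ⟨h1, h2⟩ := ih (k + 1) hS0 hch2
    refine ⟨?_, fun _ => ?_⟩
    · rw [show k + (a + 1) = k + 1 + a by ring]
      exact h1
    · have h3 := hst.lt hp.two_le hπ hSpos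
      rcases Nat.eq_zero_or_pos a with h0 | h0
      · have h4 : od w (z - 1) = od w S := by
          rw [hS, h0, pow_zero, one_mul, od_eq w (pow_sub_one_val hz hb)]
        rw [h4]
        exact h3
      · exact (h2 h0).trans h3

/-! ### the dynamics -/

/-- the powers and the perturbation -/
theorem dyn {d A : ℕ} {c x y : E} (hc : w c < 1) (hc0 : c ≠ 0) (hx : w x = 1) (hy : w y = 1)
    (hXY : w ((x ^ d + c) - (y ^ d + c)) = 1) (hA : w (A : E) = 1)
    (hX : w (x ^ d + c) = 1) (hY : w (y ^ d + c) = 1) :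
    ∃ η : E, w (η) = w c ∧ ((x / y) ^ A) ^ d =
      (((x ^ d + c) / (y ^ d + c)) ^ A) * (1 + η) := by
  set X := x ^ d + c with hXdef
  set Y := y ^ d + c with hYdef
  have ne0 : ∀ z : E, w z = 1 → z ≠ 0 := by
    intro z hz h0
    rw [h0, map_zero] at hz
    exact zero_ne_one hz
  have hx0 := ne0 x hx
  have hy0 := ne0 y hy
  have hX0 := ne0 X hX
  have hY0 := ne0 Y hY
  have hYc : w (Y - c) = 1 := by
    rw [hYdef, add_sub_cancel_right, map_pow, hy, one_pow]
  have hYc0 := ne0 _ hYc
  set U := (X - c) * Y / (X * (Y - c)) with hU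
  have hU1 : U - 1 = c * (X - Y) / (X * (Y - c)) := by
    rw [hU]
    field_simp
    ring
  have hwU : w (U - 1) = w c := by
    rw [hU1, map_div₀, map_mul, map_mul, hXY, hX, hYc, mul_one, one_mul, div_one]
  have hwUA : w (U ^ A - 1) = w c := by
    rw [pow_sub_one_val (by rw [hwU]; exact hc) hA, hwU]
  refine ⟨U ^ A - 1, hwUA, ?_⟩
  have e1 : (x / y) ^ d = X / Y * U := by
    have e2 : x ^ d = X - c := by rw [hXdef]; ring
    have e3 : y ^ d = Y - c := by rw [hYdef]; ring
    rw [div_pow, e2, e3, hU]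
    field_simp
  rw [add_sub_cancel, ← mul_pow, ← pow_mul, mul_comm A d, pow_mul, e1]

theorem iter_lt {d : ℕ} {c : E} (hc : w c < 1) (x y : E) (hx : w x ≤ 1) (hy : w y ≤ 1)
    (h : w (x - y) < 1) (n : ℕ) :
    w ((fun z => z ^ d + c)^[n] x - (fun z => z ^ d + c)^[n] y) < 1 := by
  induction n generalizing x y with
  | zero => exact h
  | succ n ih =>
    rw [Function.iterate_succ_apply, Function.iterate_succ_apply]
    refine ih _ _ ?_ ?_ ?_
    · exact Valuation.map_add_le w (by rw [map_pow]; exact pow_le_one₀ zero_le hx) hc.le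
    · exact Valuation.map_add_le w (by rw [map_pow]; exact pow_le_one₀ zero_le hy) hc.le
    · have e : x ^ d + c - (y ^ d + c) = (∑ i ∈ Finset.range d, x ^ i * y ^ (d - 1 - i)) *
          (x - y) := by
        rw [(Commute.all x y).geom_sum₂_mul d]; ring
      change w (x ^ d + c - (y ^ d + c)) < 1
      rw [e, map_mul]
      refine (mul_le_of_le_one_left zero_le ?_).trans_lt h
      refine Valuation.map_sum_le w fun i _ => ?_
      rw [map_mul, map_pow, map_pow]
      exact mul_le_one' (pow_le_one₀ zero_le hx) (pow_le_one₀ zero_le hy)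

/-- **The chain of the orbit.** -/
theorem orbit_chain {p : ℕ} (hp : p.Prime) (hp0 : (p : E) ≠ 0) (hwp : w (p : E) < 1) {a b : ℕ}
    (ha : 0 < a) (hb : w (b : E) = 1) {c : E} (hc0 : c ≠ 0) (hc : w c < 1) {A : ℕ}
    (hA : w (A : E) = 1) (hA1 : ∀ z : E, w z = 1 → w (z ^ A - 1) < 1) (N : ℕ) :
    ∀ x y : E, w x = 1 → w y = 1 →
      w ((fun z => z ^ (p ^ a * b) + c)^[N] x - (fun z => z ^ (p ^ a * b) + c)^[N] y) = 1 →
      ((fun z => z ^ (p ^ a * b) + c)^[N] x / (fun z => z ^ (p ^ a * b) + c)^[N] y) ^ A = 1 →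
      N = 0 ∨ ((x / y) ^ A - 1 ≠ 0 ∧
        Chain p (od w (p : E)) (od w c) (N * a) (od w ((x / y) ^ A - 1)) ∧
        od w ((x / y) ^ A - 1) < od w c) := by
  induction N with
  | zero => intro x y _ _ _ _; left; rfl
  | succ N ih =>
    intro x y hx hy hdiff hone
    right
    set d := p ^ a * b with hd
    set X := x ^ d + c with hX
    set Y := y ^ d + c with hY
    have hXw : w X = 1 := by
      rw [hX, Valuation.map_add_eq_of_lt_left w] <;> rw [map_pow, hx, one_pow]
      exact hc
    have hYw : w Y = 1 := by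
      rw [hY, Valuation.map_add_eq_of_lt_left w] <;> rw [map_pow, hy, one_pow]
      exact hc
    rw [Function.iterate_succ_apply, Function.iterate_succ_apply] at hdiff hone
    change w ((fun z => z ^ d + c)^[N] X - (fun z => z ^ d + c)^[N] Y) = 1 at hdiff
    change ((fun z => z ^ d + c)^[N] X / (fun z => z ^ d + c)^[N] Y) ^ A = 1 at hone
    have hXY : w (X - Y) = 1 := by
      have hle : w (X - Y) ≤ 1 := Valuation.map_sub_le w hXw.le hYw.le
      rcases hle.lt_or_eq with h | h
      · exact absurd hdiff (iter_lt hc X Y hXw.le hYw.le h N).ne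
      · exact h
    obtain ⟨η, hη, hdyn⟩ := dyn hc hc0 hx hy hXY hA hXw hYw
    rw [← hX, ← hY] at hdyn
    set z := (x / y) ^ A with hz
    have hxy1 : w (x / y) = 1 := by rw [map_div₀, hx, hy, div_one]
    have hz1 : w (z - 1) < 1 := hA1 _ hxy1
    have hη0 : η ≠ 0 := by
      rintro rfl
      rw [map_zero] at hη
      exact u_ne w hc0 hη.symm
    have hodη : od w η = od w c := od_eq w hη
    have hXY1 : w (X / Y) = 1 := by rw [map_div₀, hXw, hYw, div_one]
    rcases ih X Y hXw hYw hdiff hone with h0 | ⟨h1, h2, h3⟩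
    · -- the last step
      subst h0
      change (X / Y) ^ A = 1 at hone
      have e1 : z ^ (p ^ a * b) - 1 = η := by
        rw [← hd, hdyn, hone, one_mul]; ring
      have hne : z ^ (p ^ a * b) - 1 ≠ 0 := by rw [e1]; exact hη0
      have hch : Chain p (od w (p : E)) (od w c) 0 (od w (z ^ (p ^ a * b) - 1)) := by
        rw [e1, hodη]
        exact Chain.zero
      obtain ⟨g1, g2, g3⟩ := block hp hp0 hwp hb hz1 a 0 hne hch
      refine ⟨g1, ?_, ?_⟩
      · rw [zero_add, one_mul]
        rw [zero_add] at g2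
        exact g2
      · have := g3 ha
        rw [e1, hodη] at this
        exact this
    · -- an earlier step
      set T2 := (X / Y) ^ A - 1 with hT2
      have e1 : z ^ (p ^ a * b) - 1 = T2 + η * (X / Y) ^ A := by
        rw [← hd, hdyn, hT2]; ring
      have hprod0 : η * (X / Y) ^ A ≠ 0 := by
        refine mul_ne_zero hη0 (pow_ne_zero _ ?_)
        intro h0
        rw [h0, map_zero] at hXY1
        exact zero_ne_one hXY1
      have hodprod : od w (η * (X / Y) ^ A) = od w c := by
        rw [← hodη]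
        apply od_eq
        rw [map_mul, map_pow, hXY1, one_pow, mul_one]
      obtain ⟨g0, g0'⟩ := od_add_eq w h1 (y := η * (X / Y) ^ A)
        (Or.inr (by rw [hodprod]; exact h3))
      have hne : z ^ (p ^ a * b) - 1 ≠ 0 := by rw [e1]; exact g0
      have hch : Chain p (od w (p : E)) (od w c) (N * a) (od w (z ^ (p ^ a * b) - 1)) := by
        rw [e1, g0']
        exact h2
      obtain ⟨g1, g2, g3⟩ := block hp hp0 hwp hb hz1 a (N * a) hne hch
      refine ⟨g1, ?_, ?_⟩
      · rw [show (N + 1) * a = N * a + a by ring]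
        exact g2
      · have := g3 ha
        rw [e1, g0'] at this
        exact this.trans h3

end Pool.Agent.UHZ
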